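import Mathlib

/-! # Quasi-F-purity: definitions -/

set_option autoImplicit false

namespace Pool.Agent.T2H42.QF

open scoped TensorProduct

universe u

section Defs

variable (p : ℕ) [hp : Fact p.Prime] (ℓ : ℕ) (S : Type u) [CommRing S]

/-- The Frobenius of `W_ℓ(S)` (characteristic `p`): `p`-th powers of all the Witt components. -/
noncomputable def frob [CharP S p] : TruncatedWittVector p ℓ S →+* TruncatedWittVector p ℓ S where
  toFun x := TruncatedWittVector.mk p fun i => x.coeff i ^ p
  map_one' := by
    have h : ∀ X : WittVector p S, (TruncatedWittVector.mk p fun i => (WittVector.truncate ℓ X).coeff i ^ p) =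
        WittVector.truncate ℓ (WittVector.frobenius X) := by
      intro X
      ext i
      rw [TruncatedWittVector.coeff_mk, WittVector.coeff_truncate, WittVector.coeff_truncate,
        WittVector.coeff_frobenius_charP]
    rw [← map_one (WittVector.truncate ℓ), h, map_one]
  map_zero' := by
    have h : ∀ X : WittVector p S, (TruncatedWittVector.mk p fun i => (WittVector.truncate ℓ X).coeff i ^ p) =
        WittVector.truncate ℓ (WittVector.frobenius X) := by
      intro X
      ext i
      rw [TruncatedWittVector.coeff_mk, WittVector.coeff_truncate, WittVector.coeff_truncate,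
        WittVector.coeff_frobenius_charP]
    rw [← map_zero (WittVector.truncate ℓ), h, map_zero]
  map_mul' x y := by
    have h : ∀ X : WittVector p S, (TruncatedWittVector.mk p fun i => (WittVector.truncate ℓ X).coeff i ^ p) =
        WittVector.truncate ℓ (WittVector.frobenius X) := by
      intro X
      ext i
      rw [TruncatedWittVector.coeff_mk, WittVector.coeff_truncate, WittVector.coeff_truncate,
        WittVector.coeff_frobenius_charP]
    obtain ⟨X, rfl⟩ := WittVector.truncate_surjective p ℓ S x
    obtain ⟨Y, rfl⟩ := WittVector.truncate_surjective p ℓ S y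
    rw [← map_mul, h, h, h, map_mul, map_mul]
  map_add' x y := by
    have h : ∀ X : WittVector p S, (TruncatedWittVector.mk p fun i => (WittVector.truncate ℓ X).coeff i ^ p) =
        WittVector.truncate ℓ (WittVector.frobenius X) := by
      intro X
      ext i
      rw [TruncatedWittVector.coeff_mk, WittVector.coeff_truncate, WittVector.coeff_truncate,
        WittVector.coeff_frobenius_charP]
    obtain ⟨X, rfl⟩ := WittVector.truncate_surjective p ℓ S x
    obtain ⟨Y, rfl⟩ := WittVector.truncate_surjective p ℓ S y
    rw [← map_add, h, h, h, map_add, map_add]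

/-- The restriction `R^ℓ : W_(ℓ+1)(S) → S`, that is the Witt component of index `0`. -/
noncomputable def res : TruncatedWittVector p (ℓ + 1) S →+* S where
  toFun x := x.coeff 0
  map_one' := by
    have h : ∀ X : WittVector p S, (WittVector.truncate (ℓ + 1) X).coeff 0 = WittVector.constantCoeff X :=
      fun X => WittVector.coeff_truncate X 0
    rw [← map_one (WittVector.truncate (ℓ + 1)), h, map_one]
  map_zero' := by
    have h : ∀ X : WittVector p S, (WittVector.truncate (ℓ + 1) X).coeff 0 = WittVector.constantCoeff X :=
      fun X => WittVector.coeff_truncate X 0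
    rw [← map_zero (WittVector.truncate (ℓ + 1)), h, map_zero]
  map_mul' x y := by
    have h : ∀ X : WittVector p S, (WittVector.truncate (ℓ + 1) X).coeff 0 = WittVector.constantCoeff X :=
      fun X => WittVector.coeff_truncate X 0
    obtain ⟨X, rfl⟩ := WittVector.truncate_surjective p (ℓ + 1) S x
    obtain ⟨Y, rfl⟩ := WittVector.truncate_surjective p (ℓ + 1) S y
    rw [← map_mul, h, h, h, map_mul]
  map_add' x y := by
    have h : ∀ X : WittVector p S, (WittVector.truncate (ℓ + 1) X).coeff 0 = WittVector.constantCoeff X :=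
      fun X => WittVector.coeff_truncate X 0
    obtain ⟨X, rfl⟩ := WittVector.truncate_surjective p (ℓ + 1) S x
    obtain ⟨Y, rfl⟩ := WittVector.truncate_surjective p (ℓ + 1) S y
    rw [← map_add, h, h, h, map_add]

/-- `F_* W_ℓ(S)`: the ring `W_ℓ(S)`, as a module over itself through the Frobenius. -/
def FStar (p ℓ : ℕ) (S : Type u) : Type u := TruncatedWittVector p ℓ S

noncomputable instance instFStarGroup : AddCommGroup (FStar p ℓ S) :=
  inferInstanceAs (AddCommGroup (TruncatedWittVector p ℓ S))

noncomputable instance instFStarModule [CharP S p] : Module (TruncatedWittVector p ℓ S) (FStar p ℓ S) :=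
  Module.compHom (TruncatedWittVector p ℓ S) (frob p ℓ S)

/-- `S` as a module over `W_(ℓ+1)(S)` through the restriction. -/
def ResMod (p ℓ : ℕ) (S : Type u) : Type u := S

noncomputable instance instResGroup : AddCommGroup (ResMod p ℓ S) := inferInstanceAs (AddCommGroup S)

noncomputable instance instResModuleS : Module S (ResMod p ℓ S) := inferInstanceAs (Module S S)

noncomputable instance instResModule : Module (TruncatedWittVector p (ℓ + 1) S) (ResMod p ℓ S) :=
  Module.compHom S (res p ℓ S)

instance instResComm : SMulCommClass (TruncatedWittVector p (ℓ + 1) S) S (ResMod p ℓ S) :=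
  ⟨fun w s x => mul_left_comm (res p ℓ S w) s (show S from x)⟩

/-- `Q_(S, ℓ+1) = S ⊗ F_* W_(ℓ+1)(S)` over `W_(ℓ+1)(S)`; an `S`-module through the factor `S`. -/
abbrev QMod [CharP S p] : Type u :=
  ResMod p ℓ S ⊗[TruncatedWittVector p (ℓ + 1) S] FStar p (ℓ + 1) S

/-- The map `Φ : S → Q_(S, ℓ+1)`, `s ↦ s ⊗ F(1)`. -/
noncomputable def Phi [CharP S p] : S →ₗ[S] QMod p ℓ S :=
  LinearMap.toSpanSingleton S (QMod p ℓ S)
    ((show ResMod p ℓ S from (1 : S)) ⊗ₜ[TruncatedWittVector p (ℓ + 1) S]
      (show FStar p (ℓ + 1) S from (1 : TruncatedWittVector p (ℓ + 1) S)))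

/-- `S` is `(ℓ+1)`-quasi-F-pure: `Φ` is pure (injective after tensoring with any `S`-module). -/
def LevelPure [CharP S p] : Prop :=
  ∀ (M : Type u) [AddCommGroup M] [Module S M], Function.Injective (LinearMap.lTensor M (Phi p ℓ S))

end Defs

/-- a Frobenius lift: `B/p = A`, `p` a nonzerodivisor in `B`, `φ` lifts the Frobenius of `A` -/
structure Lift (p : ℕ) {A B : Type u} [CommRing A] [CommRing B] (π : B →+* A) (φ : B →+* B) : Prop where
  surj : Function.Surjective π
  ker : ∀ b, π b = 0 ↔ ∃ c, b = (p : B) * c
  nzd : ∀ b, (p : B) * b = 0 → b = 0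
  lift : ∀ b, π (φ b) = π b ^ p

/-- a `p⁻¹`-linear map -/
def UMap (p : ℕ) {A : Type u} [CommRing A] (u : A →+ A) : Prop :=
  ∀ c a, u (c ^ p * a) = c * u a

/-- the Fermat polynomial -/
noncomputable def fer (n d : ℕ) (R : Type u) [CommRing R] : MvPolynomial (Fin n) R := ∑ i, MvPolynomial.X i ^ d

end Pool.Agent.T2H42.QF
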