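import Pool.Agent.T2H42.QF.Defs

/-!
# Quasi-F-purity of Fermat hypersurfaces: statements of the packages

Project QF (helper42), problem `MP_34f229_ag`. Theorem: `k` perfect of characteristic `p = a n + 2`, `n ≥ 3`, `a ≥ 1`,
`⌈p/(a+1)⌉ ≤ d < n`: then `k[x_1, …, x_n]/(x_1^d + ⋯ + x_n^d)` is quasi-F-pure, of height at most `2`.

Proof. `A = k[x]`, `B = W(k)[x]`, `φ : B → B` the Frobenius lift, `δ(b) = (φ b - b^p)/p`, `u : F_* A → A` the generator of
`Hom(F_* A, A)`. For `g, h ∈ A` with `u(h) = 0` the map `ψ(a, b) = u(g a) + u²(h (b - δ(ã)))` (`ã` any lift of `a`) is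
`W_2(A)`-linear `F_* W_2(A) → A`. With `f̃ = ∑ x_i^d`, `h = f^(p²-1) h'`, `u(f^(p-1) h') = 0`, `g = f^(p-2) u(f^(p-1) h' δ(f̃))` it maps
`W_2(f A)` to `f A`, so it descends to `A/f`. For a suitable monomial `h'` and a monomial `c` the value `ψ([c])` is a nonzero
constant. So `F_* W_2(A/f) → A/f`, `v ↦ λ ψ([c] v)`, splits `Φ`.

Package `X` proves `theorem T_X (deps…) : P_X` in `Pool/Agent/T2H42/QF/T_X.lean`, namespace `Pool.Agent.T2H42.QF`, importing
`Pool.Agent.T2H42.QF.Stm` (prefix own lemmas with the name of the package or make them private).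
-/

set_option autoImplicit false

namespace Pool.Agent.T2H42.QF

open MvPolynomial

universe u

/-- **PUR** (30 min). A splitting gives purity. Proof: `TensorProduct.lift` of `(s, v) ↦ s * ψ v` (bilinear over
`W = W_(ℓ+1)(S)`: `(w • s) * ψ v = w_0 s ψ v = s * ψ (F(w) v)`) is a map `r : QMod p ℓ S → S`, `S`-linear, with `r (Phi s) = s`
(`Phi s = s • (1 ⊗ 1)`). So `r ∘ Phi = id`, and `lTensor M r ∘ lTensor M Phi = id` (`LinearMap.lTensor_comp`): injective. -/
def P_PUR : Prop := ∀ (p : ℕ) [Fact p.Prime] (ℓ : ℕ) (S : Type u) [CommRing S] [CharP S p]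
  (ψ : TruncatedWittVector p (ℓ + 1) S →+ S),
  (∀ w v, ψ (frob p (ℓ + 1) S w * v) = res p ℓ S w * ψ v) → ψ 1 = 1 → LevelPure p ℓ S

/-- **CPO** (15 min). All the coefficients of `X^p + Y^p - (X+Y)^p` are divisible by `p` (`add_pow_char` modulo `p`, or
`Commute.add_pow` and `p ∣ choose p i`). -/
def P_CPO : Prop := ∀ (p : ℕ), p.Prime → ∃ C : MvPolynomial (Fin 2) ℤ,
  (p : MvPolynomial (Fin 2) ℤ) * C = X 0 ^ p + X 1 ^ p - (X 0 + X 1) ^ p

/-- **W2** (45 min). Addition and multiplication of Witt vectors of length two in characteristic `p`. Proof: lift `x`, `y` to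
Witt vectors; the structure polynomials `wittAdd`, `wittMul` over `ℤ` satisfy (ghost component `1`, `wittStructureInt_prop`)
`(S_0)^p + p S_1 = X_0^p + p X_1 + Y_0^p + p Y_1` and the same for the product; `S_0 = X_0 + Y_0`, cancel `p` in
`MvPolynomial _ ℤ`. (Or: Witt vectors over a polynomial ring over `ℤ` without `p`-torsion, `WittVector.ghostComponent`, and
functoriality `WittVector.map`.) -/
def P_W2 : Prop := ∀ (p : ℕ) [Fact p.Prime] (S : Type u) [CommRing S] [CharP S p]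
  (x y : TruncatedWittVector p 2 S),
  (x * y).coeff 1 = x.coeff 0 ^ p * y.coeff 1 + y.coeff 0 ^ p * x.coeff 1 ∧
  ∀ C : MvPolynomial (Fin 2) ℤ, (p : MvPolynomial (Fin 2) ℤ) * C = X 0 ^ p + X 1 ^ p - (X 0 + X 1) ^ p →
    (x + y).coeff 1 = x.coeff 1 + y.coeff 1 + aeval ![x.coeff 0, y.coeff 0] C

/-- **PSI** (50 min; hypotheses `P_CPO`, `P_W2`). Proof. For `b ∈ B` let `δ b` be the unique `e` with `p e = φ b - b^p` (it exists:
`π (φ b - b^p) = 0`). `δ (b + b') = δ b + δ b' + C(b, b')`, `δ (b b') = φ b δ b' + b'^p δ b` (multiply by `p`, cancel), so modulo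
`p`: `π δ(b + p c) = π δ b + (π c)^p` (`p ∣ C(b, p c)` by the binomial formula, `δ(p c) = φ c - p^(p-1) c^p`). Put
`ψ w = u (g w_0) + u (u (h (w_1 - π δ b)))`, `b` a chosen lift of `w_0`; it is independent of the choice, as
`u (u (h c^p)) = u (c u(h)) = 0`. Additivity from the addition formula. Linearity: `F(w) v = (w_0^p v_0, w_0^(p^2) v_1 + v_0^p w_1^p)`,
lift `φ(b) b'` of `w_0^p v_0`: `δ(φ b b') = φ(φ b) δ b' + b'^p δ(φ b)`, `δ (φ b) = φ (δ b)`, so modulo `p` it is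
`w_0^(p^2) δ b' + v_0^p (δ b)^p`; the terms `v_0^p w_1^p` and `v_0^p (δ b)^p` are killed, and
`u (u (h c^(p^2) t)) = c u (u (h t))`. (`p` is a natural number with `(p : A) = 0`.) -/
def P_PSI : Prop := ∀ (p : ℕ) [Fact p.Prime] (A B : Type u) [CommRing A] [CharP A p] [CommRing B]
  (π : B →+* A) (φ : B →+* B), Lift p π φ → ∀ (u : A →+ A), UMap p u → ∀ g h : A, u h = 0 →
  ∃ ψ : TruncatedWittVector p 2 A →+ A,
    (∀ w v, ψ (frob p 2 A w * v) = res p 1 A w * ψ v) ∧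
    ∀ (w : TruncatedWittVector p 2 A) (b e : B), π b = w.coeff 0 → (p : B) * e = φ b - b ^ p →
      ψ w = u (g * w.coeff 0) + u (u (h * (w.coeff 1 - π e)))

/-- **DSC** (30 min). Proof. `w_0 = f a`, `w_1 = f b`; lift `F c` of `f a` (`π c = a`), `e_c` with `p e_c = φ c - c^p`; then
`e = φ(F) e_c + c^p D` satisfies `p e = φ (F c) - (F c)^p`, `π e = f^p π(e_c) + a^p π(D)`. Put `θ = u (f^(p-1) h' π D)`. Then
`u (f^(p-2) θ f a) = u (f^(p-1) θ a)`; `u (u (f^(p^2-1) h' f b)) = f u (u (h' b))` (`p^2 - 1 + 1 = p^2`);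
`u (u (f^(p^2-1) h' f^p π e_c)) = f u (u (f^(p-1) h' π e_c))`;
`u (u (f^(p^2-1) h' a^p π D)) = u (a f^(p-1) u (f^(p-1) h' π D)) = u (a f^(p-1) θ)` (`p^2 - 1 = p (p-1) + (p-1)`) cancels the
first term. -/
def P_DSC : Prop := ∀ (p : ℕ) [Fact p.Prime] (A B : Type u) [CommRing A] [CharP A p] [CommRing B]
  (π : B →+* A) (φ : B →+* B), Lift p π φ → ∀ (u : A →+ A), UMap p u → ∀ (f h' : A) (F D : B), π F = f →
  (p : B) * D = φ F - F ^ p →
  ∀ (ψ : TruncatedWittVector p 2 A →+ A),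
    (∀ (w : TruncatedWittVector p 2 A) (b e : B), π b = w.coeff 0 → (p : B) * e = φ b - b ^ p →
      ψ w = u (f ^ (p - 2) * u (f ^ (p - 1) * h' * π D) * w.coeff 0) +
        u (u (f ^ (p ^ 2 - 1) * h' * (w.coeff 1 - π e)))) →
    ∀ w : TruncatedWittVector p 2 A, f ∣ w.coeff 0 → f ∣ w.coeff 1 → f ∣ ψ w

/-- **QUO** (45 min; hypothesis `P_W2`). Descent to the quotient. Proof: the map `μ : W_2(A) → W_2(A/f)`, `μ w = mk ![w_0 mod f, w_1 mod f]`
is a surjective ring homomorphism (lift to `WittVector.map (Ideal.Quotient.mk _)` and truncate) which commutes with `frob`; if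
`μ w = 0` then `f ∣ w_0`, `f ∣ w_1`. With `[c] = mk ![c, 0]` the map `w ↦ lam * ψ ([c] * w) mod f` is additive and kills the kernel of
`μ` (`[c] * w = (c w_0, c^p w_1)` by `P_W2`), so it is `ψ' ∘ μ`. Linearity: `[c] F(w) v = F(w) ([c] v)`. `ψ' 1 = lam * ψ [c] = 1`. -/
def P_QUO : Prop := ∀ (p : ℕ) [Fact p.Prime] (A : Type u) [CommRing A] [CharP A p] (f : A)
  [CharP (A ⧸ Ideal.span {f}) p] (ψ : TruncatedWittVector p 2 A →+ A),
  (∀ w v, ψ (frob p 2 A w * v) = res p 1 A w * ψ v) →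
  (∀ w : TruncatedWittVector p 2 A, f ∣ w.coeff 0 → f ∣ w.coeff 1 → f ∣ ψ w) →
  ∀ c lam : A, lam * ψ (TruncatedWittVector.mk p ![c, 0]) = 1 →
  ∃ ψ' : TruncatedWittVector p 2 (A ⧸ Ideal.span {f}) →+ (A ⧸ Ideal.span {f}),
    (∀ w v, ψ' (frob p 2 _ w * v) = res p 1 _ w * ψ' v) ∧ ψ' 1 = 1

/-- **UMP** (40 min). The generator of `Hom(F_* A, A)` for `A = k[x_1, …, x_n]`. Proof: `u P = ∑_{α ∈ supp P} (…)` (`Finsupp.sum`,
`Finsupp.liftAddHom`), additive as the `p`-th root is additive. `u (c^p a) = c u a`: both sides are additive in `a`, and additive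
in `c` by `add_pow_char` (and `u` additive), so it is enough for `a`, `c` monomials (`MvPolynomial.induction_on'`):
`(β p + α) % p = α % p`, `(β p + α) / p = β + α / p`. -/
def P_UMP : Prop := ∀ (p : ℕ) [Fact p.Prime] (k : Type u) [Field k] [CharP k p] [PerfectRing k p] (n : ℕ),
  ∃ u : MvPolynomial (Fin n) k →+ MvPolynomial (Fin n) k, UMap p u ∧
    ∀ (α : Fin n →₀ ℕ) (c : k), u (monomial α c) =
      if ∀ i, α i % p = p - 1 then
        monomial (α.mapRange (fun m => m / p) (Nat.zero_div p)) ((frobeniusEquiv k p).symm c) else 0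

/-- **LFT** (40 min). The Frobenius lift on `W(k)[x]`. Proof: `φ = eval₂Hom (C.comp WittVector.frobenius) (fun i => X i ^ p)`.
`W(k)` is a domain of characteristic `0`, `p` is not a zero divisor; the kernel of `constantCoeff : W(k) → k` is `p W(k)` for `k`
perfect (`WittVector.exists_eq_pow_p_mul`, `verschiebung_frobenius`, `WittVector.p_nonunit…`, or `V x = V (F y) = p y` with
`F` surjective); coefficientwise for polynomials. `lift`: both sides are ring homomorphisms (`frobenius` of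
`MvPolynomial (Fin n) k`), check on `C` and `X i` (`WittVector.frobenius_eq_map_frobenius`). -/
def P_LFT : Prop := ∀ (p : ℕ) [Fact p.Prime] (k : Type u) [Field k] [CharP k p] [PerfectRing k p] (n : ℕ),
  ∃ φ : MvPolynomial (Fin n) (WittVector p k) →+* MvPolynomial (Fin n) (WittVector p k),
    Lift p (MvPolynomial.map (WittVector.constantCoeff : WittVector p k →+* k)) φ ∧ ∀ i, φ (X i) = X i ^ p

/-- **NUM** (25 min). Proof. `d a ≤ (n-1) a = p - 2 - a`, so `p - d a ≥ a + 2 ≥ 3`. Let `K = (p (p - d a) - 1) / d`. From `p ≤ d (a+1)`: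
`p - d a ≤ d`, so `d K < p (p - d a) ≤ p d`, `K < p`. `d (K + 1) ≥ p (p - d a) ≥ 3 p`, `n > d`, `p > n`, so
`n K ≥ n (3 p / d) - n > 3 p - n > 2 p - 1`. Choose `κ_i ≤ K` with sum `2 p - 1` (possible as `n K ≥ 2 p - 1`: induction on `n`).
`d κ_i < p (p - d a)` gives `d κ_i / p < p - d a`. -/
def P_NUM : Prop := ∀ p a n d : ℕ, p = a * n + 2 → 1 ≤ a → 3 ≤ n → p ≤ d * (a + 1) → d < n →
  ∃ κ : Fin n → ℕ, ∑ i, κ i = 2 * p - 1 ∧ (∀ i, κ i < p) ∧ ∀ i, d * κ i / p + d * a ≤ p - 1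

/-- **POW** (30 min). Powers of the Fermat polynomial (`Finset.sum_pow`, `Finset.sum_pow_of_commute` or the version with
`Finset.piAntidiag`; `X i ^ d` to the power `m i`; distinct `m` give distinct monomials as `d ≥ 1`). -/
def P_POW : Prop := ∀ (R : Type u) [CommRing R] (n d N : ℕ), 1 ≤ d →
  (∀ α, coeff α (fer n d R ^ N) ≠ 0 → ∃ m : Fin n → ℕ, (∀ i, α i = d * m i) ∧ ∑ i, m i = N) ∧
  ∀ (α : Fin n →₀ ℕ) (m : Fin n → ℕ), (∀ i, α i = d * m i) → ∑ i, m i = N →
    coeff α (fer n d R ^ N) = (Nat.multinomial Finset.univ m : R)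

/-- **DEL** (45 min; hypothesis `P_POW`). The coefficients of `f^(p-1) δ(f̃)`. Proof: in `B = W(k)[x]`, with `F = fer n d`,
`p (F^(p-1) D) = F^(p-1) ∑ X_i^(d p) - F^(2p-1)`. The coefficient at `α` of the right side is `0` unless `α = d m`, `∑ m = 2p-1`
(`P_POW`); `p` is a nonzerodivisor of `W(k)` (domain of characteristic `0`): (a). (b): at `α = d κ` with all `κ_i < p` the first
term has coefficient `0` (it would give `κ_i = m_i + p`), the second `(2p-1)!/∏ κ_i!` which is `p` times an integer prime to `p`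
(`(2p-1)! = p! ∏_{j<p} (p+j)`, valuation `1`, and `p ∤ κ_i!`); `map constantCoeff (fer n d (W k)) = fer n d k`. -/
def P_DEL : Prop := ∀ (p : ℕ) [Fact p.Prime] (k : Type u) [Field k] [CharP k p] [PerfectRing k p] (n d : ℕ),
  1 ≤ d → ∀ D : MvPolynomial (Fin n) (WittVector p k),
  (p : MvPolynomial (Fin n) (WittVector p k)) * D = ∑ i, X i ^ (d * p) - fer n d (WittVector p k) ^ p →
  (∀ α, coeff α (fer n d k ^ (p - 1) * MvPolynomial.map (WittVector.constantCoeff : WittVector p k →+* k) D) ≠ 0 →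
    ∃ m : Fin n → ℕ, (∀ i, α i = d * m i) ∧ ∑ i, m i = 2 * p - 1) ∧
  ∀ (α : Fin n →₀ ℕ) (κ : Fin n → ℕ), (∀ i, κ i < p) → ∑ i, κ i = 2 * p - 1 → (∀ i, α i = d * κ i) →
    coeff α (fer n d k ^ (p - 1) * MvPolynomial.map (WittVector.constantCoeff : WittVector p k →+* k) D) ≠ 0

/-- **SEL** (35 min). The values of `u`. Proof: `P = ∑ monomial α (coeff α P)`, `P * monomial γ 1 = ∑ monomial (α + γ) (…)`. A term is
not killed by `u` only if `d m_i + p - 1 - (d κ_i % p) ≡ p - 1 (mod p)` for all `i`, i.e. `d m_i ≡ d κ_i`, `m_i ≡ κ_i (mod p)` (`p` prime,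
`p ∤ d`), so `m_i ≥ κ_i` as `κ_i < p`, and `N = ∑ m ≥ ∑ κ` with equality only for `m = κ`. For `m = κ`:
`d κ_i + (p - 1 - d κ_i % p) = p (d κ_i / p) + (p - 1)`. -/
def P_SEL : Prop := ∀ (p : ℕ) [Fact p.Prime] (k : Type u) [Field k] [CharP k p] [PerfectRing k p] (n d N : ℕ)
  (u : MvPolynomial (Fin n) k →+ MvPolynomial (Fin n) k),
  (∀ (α : Fin n →₀ ℕ) (c : k), u (monomial α c) =
      if ∀ i, α i % p = p - 1 then
        monomial (α.mapRange (fun m => m / p) (Nat.zero_div p)) ((frobeniusEquiv k p).symm c) else 0) →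
  ¬ p ∣ d → ∀ P : MvPolynomial (Fin n) k,
  (∀ α, coeff α P ≠ 0 → ∃ m : Fin n → ℕ, (∀ i, α i = d * m i) ∧ ∑ i, m i = N) →
  ∀ (κ : Fin n → ℕ) (γ ε α : Fin n →₀ ℕ), (∀ i, κ i < p) → (∀ i, γ i = p - 1 - d * κ i % p) →
  (∀ i, ε i = d * κ i / p) → (∀ i, α i = d * κ i) →
  (N < ∑ i, κ i → u (P * monomial γ 1) = 0) ∧
  (N = ∑ i, κ i → u (P * monomial γ 1) = monomial ε ((frobeniusEquiv k p).symm (coeff α P)))

/-- **CHR** (15 min). Proof: `fer n d k` is not a unit (it is in the ideal of the polynomials vanishing at `0`), so the quotient is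
a nontrivial `k`-algebra: `charP_of_injective_algebraMap`. -/
def P_CHR : Prop := ∀ (p : ℕ) [Fact p.Prime] (k : Type u) [Field k] [CharP k p] (n d : ℕ), 1 ≤ d →
  CharP (MvPolynomial (Fin n) k ⧸ Ideal.span {fer n d k}) p

/-- **FIN** (assembly, helper42). -/
def P_FIN : Prop := ∀ (p a n d : ℕ) [Fact p.Prime] (k : Type u) [Field k] [CharP k p] [PerfectRing k p],
  p = a * n + 2 → 1 ≤ a → 3 ≤ n → p ≤ d * (a + 1) → d < n →
  ∃ _ : CharP (MvPolynomial (Fin n) k ⧸ Ideal.span {fer n d k}) p,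
    LevelPure p 1 (MvPolynomial (Fin n) k ⧸ Ideal.span {fer n d k})

end Pool.Agent.T2H42.QF
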