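import Pool.Agent.T2H42.QF.Stm

set_option autoImplicit false

namespace Pool.Agent.T2H42.QF

open MvPolynomial

universe u

theorem T_CHR : P_CHR.{u} := by
  intro p _ k _ _ n d hd
  have h0 : constantCoeff (fer n d k) = 0 := by
    unfold fer
    rw [map_sum]
    refine Finset.sum_eq_zero fun i _ => ?_
    rw [map_pow, constantCoeff_X, zero_pow (by omega)]
  have hne : Ideal.span {fer n d k} ≠ ⊤ := by
    intro h
    rw [Ideal.span_singleton_eq_top] at h
    have := h.map (constantCoeff : MvPolynomial (Fin n) k →+* k)
    rw [h0] at this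
    exact not_isUnit_zero this
  haveI : Nontrivial (MvPolynomial (Fin n) k ⧸ Ideal.span {fer n d k}) :=
    Ideal.Quotient.nontrivial_iff.mpr hne
  exact charP_of_injective_algebraMap
    (algebraMap k (MvPolynomial (Fin n) k ⧸ Ideal.span {fer n d k})).injective p

end Pool.Agent.T2H42.QF
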