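import Pool.Agent.T2H42.QF.Stm

/-! # Project QF, package CPO -/

set_option autoImplicit false

namespace Pool.Agent.T2H42.QF

open MvPolynomial

theorem T_CPO : P_CPO := by
  intro p hp
  have : Fact p.Prime := ⟨hp⟩
  have h : (C (p : ℤ) : MvPolynomial (Fin 2) ℤ) ∣ X 0 ^ p + X 1 ^ p - (X 0 + X 1) ^ p := by
    rw [C_dvd_iff_zmod]
    rw [map_sub, map_add, map_pow, map_pow, map_pow, map_add, map_X, map_X, add_pow_char, sub_self]
  obtain ⟨c, hc⟩ := h
  refine ⟨c, ?_⟩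
  rw [hc]
  simp
end Pool.Agent.T2H42.QF
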