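import Pool.Agent.T2H42.QF.Stm

set_option autoImplicit false

namespace Pool.Agent.T2H42.QF

open MvPolynomial

universe u

/-- the multinomial coefficient `(2p-1)!/∏ κ_i!`, all `κ_i < p`, is exactly divisible by `p` -/
theorem DEL_multi {n p : ℕ} (hp : p.Prime) (κ : Fin n → ℕ) (hκ : ∀ i, κ i < p)
    (hs : ∑ i, κ i = 2 * p - 1) : ∃ c, Nat.multinomial Finset.univ κ = p * c ∧ ¬ p ∣ c := by
  have hspec := Nat.multinomial_spec Finset.univ κ
  rw [hs] at hspec
  have hp2 := hp.two_le
  have hpr : Prime p := hp.prime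
  -- factorisation of (2p-1)!
  have hfac : (2 * p - 1).factorial = p * ((p - 1).factorial * ∏ i ∈ Finset.range (p - 1), (p + 1 + i)) := by
    have h1 := Nat.factorial_mul_ascFactorial p (p - 1)
    rw [Nat.ascFactorial_eq_prod_range] at h1
    have h2 : p + (p - 1) = 2 * p - 1 := by omega
    rw [h2] at h1
    rw [← h1]
    have h3 : p.factorial = p * (p - 1).factorial := (Nat.mul_factorial_pred (by omega)).symm
    rw [h3, mul_assoc]
  have hprime : ¬ p ∣ (p - 1).factorial * ∏ i ∈ Finset.range (p - 1), (p + 1 + i) := by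
    intro h
    rcases (Nat.Prime.dvd_mul hp).1 h with h | h
    · have := (Nat.Prime.dvd_factorial hp).1 h
      omega
    · obtain ⟨i, hi, hi2⟩ := (Prime.dvd_finsetProd_iff hpr _).1 h
      rw [Finset.mem_range] at hi
      have h3 : p ∣ 1 + i := by
        have h4 : p + 1 + i = p + (1 + i) := by ring
        rw [h4] at hi2
        exact (Nat.dvd_add_right (dvd_refl p)).1 hi2
      have := Nat.le_of_dvd (by omega) h3
      omega
  have hprod : ¬ p ∣ ∏ i, (κ i).factorial := by
    intro h
    obtain ⟨i, _, hi2⟩ := (Prime.dvd_finsetProd_iff hpr _).1 h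
    have := (Nat.Prime.dvd_factorial hp).1 hi2
    have := hκ i
    omega
  have hdvd : p ∣ Nat.multinomial Finset.univ κ := by
    have h : p ∣ (∏ i, (κ i).factorial) * Nat.multinomial Finset.univ κ := by
      rw [hspec, hfac]
      exact dvd_mul_right _ _
    rcases (Nat.Prime.dvd_mul hp).1 h with h | h
    · exact absurd h hprod
    · exact h
  obtain ⟨c, hc⟩ := hdvd
  refine ⟨c, hc, ?_⟩
  intro hpc
  apply hprime
  rw [hc, hfac] at hspec
  have h5 : p * ((∏ i, (κ i).factorial) * c) = p * ((p - 1).factorial * ∏ i ∈ Finset.range (p - 1), (p + 1 + i)) := by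
    rw [← hspec]
    ring
  have h6 := Nat.eq_of_mul_eq_mul_left (by omega : 0 < p) h5
  rw [← h6]
  exact Dvd.dvd.mul_left hpc _

theorem T_DEL : P_POW.{u} → P_DEL.{u} := by
  intro hPOW p hpf k _ _ _ n d hd D hD
  have hp : p.Prime := hpf.out
  have hp2 := hp.two_le
  set W := WittVector p k with hW
  set F : MvPolynomial (Fin n) W := fer n d W with hF
  set cc : W →+* k := WittVector.constantCoeff with hcc
  have hmapF : MvPolynomial.map cc F = fer n d k := by
    rw [hF]
    unfold fer
    rw [map_sum]
    refine Finset.sum_congr rfl fun i _ => ?_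
    rw [map_pow, map_X]
  set E : MvPolynomial (Fin n) W := F ^ (p - 1) * D with hE
  have hmapE : fer n d k ^ (p - 1) * MvPolynomial.map cc D = MvPolynomial.map cc E := by
    rw [hE, map_mul, map_pow, hmapF]
  have hcoef : ∀ α, coeff α (fer n d k ^ (p - 1) * MvPolynomial.map cc D) = cc (coeff α E) := by
    intro α
    rw [hmapE, coeff_map]
  have hpE : (p : MvPolynomial (Fin n) W) * E = ∑ i, F ^ (p - 1) * X i ^ (d * p) - F ^ (2 * p - 1) := by
    have h1 : (p : MvPolynomial (Fin n) W) * E = F ^ (p - 1) * ((p : MvPolynomial (Fin n) W) * D) := by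
      rw [hE]; ring
    rw [h1, hD, mul_sub, Finset.mul_sum, ← pow_add]
    congr 2
    omega
  have hpc : ∀ α, (p : W) * coeff α E = ∑ i, coeff α (F ^ (p - 1) * X i ^ (d * p)) - coeff α (F ^ (2 * p - 1)) := by
    intro α
    have h1 := congrArg (coeff α) hpE
    have h2 : ((p : ℕ) : MvPolynomial (Fin n) W) = C ((p : ℕ) : W) := by rw [map_natCast]
    rw [h2, coeff_C_mul, coeff_sub, coeff_sum] at h1
    exact h1
  have hpne : (p : W) ≠ 0 := WittVector.p_nonzero p k
  -- coefficients of `F^(p-1) X_i^(dp)`
  have hXi : ∀ (i : Fin n) (α : Fin n →₀ ℕ), coeff α (F ^ (p - 1) * X i ^ (d * p)) =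
      if Finsupp.single i (d * p) ≤ α then coeff (α - Finsupp.single i (d * p)) (F ^ (p - 1)) else 0 := by
    intro i α
    rw [X_pow_eq_monomial, coeff_mul_monomial']
    simp
  constructor
  · intro α hα
    rw [hcoef] at hα
    have hne : coeff α E ≠ 0 := by
      intro h
      rw [h, map_zero] at hα
      exact hα rfl
    have hne2 := mul_ne_zero hpne hne
    rw [hpc] at hne2
    by_cases hF2 : coeff α (F ^ (2 * p - 1)) = 0
    · rw [hF2, sub_zero] at hne2
      obtain ⟨i, _, hi⟩ := Finset.exists_ne_zero_of_sum_ne_zero hne2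
      rw [hXi] at hi
      have hle : Finsupp.single i (d * p) ≤ α := by
        by_contra h
        rw [if_neg h] at hi
        exact hi rfl
      rw [if_pos hle] at hi
      obtain ⟨m, hm1, hm2⟩ := (hPOW W n d (p - 1) hd).1 _ hi
      refine ⟨fun j => m j + if j = i then p else 0, ?_, ?_⟩
      · intro j
        have h1 := hm1 j
        have h2 : Finsupp.single i (d * p) j ≤ α j := hle j
        rw [Finsupp.tsub_apply] at h1
        by_cases hij : j = i
        · subst hij
          rw [Finsupp.single_eq_same] at h1 h2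
          simp only [if_true]
          rw [mul_add]
          omega
        · rw [Finsupp.single_eq_of_ne hij] at h1
          simp only [if_neg hij, add_zero]
          omega
      · rw [Finset.sum_add_distrib, hm2, Finset.sum_ite_eq' Finset.univ i]
        simp
        omega
    · exact (hPOW W n d (2 * p - 1) hd).1 α hF2
  · intro α κ hκ hs hα
    rw [hcoef]
    obtain ⟨c, hc1, hc2⟩ := DEL_multi hp κ hκ hs
    have h1 := hpc α
    have h2 : ∀ i ∈ (Finset.univ : Finset (Fin n)), coeff α (F ^ (p - 1) * X i ^ (d * p)) = 0 := by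
      intro i _
      rw [hXi, if_neg]
      intro hle
      have h3 : Finsupp.single i (d * p) i ≤ α i := hle i
      rw [Finsupp.single_eq_same, hα] at h3
      have h4 : p ≤ κ i := Nat.le_of_mul_le_mul_left h3 (by omega)
      have := hκ i
      omega
    rw [Finset.sum_eq_zero h2, (hPOW W n d (2 * p - 1) hd).2 α κ hα hs, hc1, zero_sub] at h1
    have h5 : (p : W) * (coeff α E + (c : W)) = 0 := by
      rw [mul_add, h1]
      push_cast
      ring
    rcases mul_eq_zero.1 h5 with h6 | h6
    · exact absurd h6 hpne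
    · have h7 : coeff α E = - (c : W) := eq_neg_of_add_eq_zero_left h6
      rw [h7, map_neg, map_natCast]
      intro h8
      rw [neg_eq_zero] at h8
      exact hc2 ((CharP.cast_eq_zero_iff k p c).1 h8)

end Pool.Agent.T2H42.QF
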