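import Pool.Agent.T2H42.QF.Stm

set_option autoImplicit false

namespace Pool.Agent.T2H42.QF

open MvPolynomial

universe u

theorem T_DSC : P_DSC.{u} := by
  intro p hp A B _ _ _ π φ hL u hu f h' F D hF hD ψ hψ w ⟨a, ha⟩ ⟨b, hb⟩
  obtain ⟨c, hc⟩ := hL.surj a
  have h0 : π (φ c - c ^ p) = 0 := by rw [map_sub, hL.lift, map_pow, sub_self]
  obtain ⟨e, he⟩ := (hL.ker _).1 h0
  have hp2 : 2 ≤ p := hp.out.two_le
  have key := hψ w (F * c) (φ F * e + c ^ p * D) (by rw [map_mul, hF, hc, ha]) (by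
    rw [map_mul]
    linear_combination (φ F) * (-1 : B) * he + c ^ p * hD)
  have e1 : π (φ F * e + c ^ p * D) = f ^ p * π e + a ^ p * π D := by
    rw [map_add, map_mul, map_mul, hL.lift, map_pow, hF, hc]
  rw [key, e1, ha, hb]
  set θ := u (f ^ (p - 1) * h' * π D) with hθ
  have f1 : f ^ (p - 2) * θ * (f * a) = a * f ^ (p - 1) * θ := by
    have : f ^ (p - 1) = f ^ (p - 2) * f := by
      rw [← pow_succ]; congr 1; omega
    rw [this]; ring
  have hpp : f ^ (p ^ 2 - 1) * f = (f ^ p) ^ p := by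
    rw [← pow_succ, ← pow_mul]
    congr 1
    have : 0 < p ^ 2 := by positivity
    rw [Nat.sub_add_cancel (by omega), pow_two]
  have hpq : f ^ (p ^ 2 - 1) = (f ^ (p - 1)) ^ p * f ^ (p - 1) := by
    rw [← pow_succ, ← pow_mul]
    congr 1
    obtain ⟨q, rfl⟩ : ∃ q, p = q + 1 := ⟨p - 1, by omega⟩
    have : (q + 1) ^ 2 = q * (q + 1 + 1) + 1 := by ring
    rw [this]
    simp
  have f2 : f ^ (p ^ 2 - 1) * h' * (f * b - (f ^ p * π e + a ^ p * π D)) =
      (f ^ p) ^ p * (h' * b) - (f ^ p) ^ p * (f ^ (p - 1) * h' * π e) -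
        (a * f ^ (p - 1)) ^ p * (f ^ (p - 1) * h' * π D) := by
    have g1 : f ^ (p ^ 2 - 1) * f ^ p = (f ^ p) ^ p * f ^ (p - 1) := by
      rw [← hpp, mul_assoc]
      congr 1
      rw [← pow_succ']
      congr 1
      omega
    rw [mul_pow]
    linear_combination (h' * b) * hpp - (h' * π e) * g1 - (h' * a ^ p * π D) * hpq
  have s1 : u ((f ^ p) ^ p * (h' * b)) = f ^ p * u (h' * b) := hu _ _
  have s2 : u ((f ^ p) ^ p * (f ^ (p - 1) * h' * π e)) = f ^ p * u (f ^ (p - 1) * h' * π e) := hu _ _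
  have s3 : u ((a * f ^ (p - 1)) ^ p * (f ^ (p - 1) * h' * π D)) = a * f ^ (p - 1) * θ := hu _ _
  have s4 : u (f ^ p * u (h' * b)) = f * u (u (h' * b)) := hu _ _
  have s5 : u (f ^ p * u (f ^ (p - 1) * h' * π e)) = f * u (u (f ^ (p - 1) * h' * π e)) := hu _ _
  rw [f1, f2]
  simp only [map_sub]
  rw [s1, s2, s3, s4, s5]
  refine ⟨u (u (h' * b)) - u (u (f ^ (p - 1) * h' * π e)), ?_⟩
  ring

end Pool.Agent.T2H42.QF
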