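import Pool.Agent.T2H42.QF.Stm

/-! Package FIN: assembly. -/

set_option autoImplicit false

namespace Pool.Agent.T2H42.QF

open MvPolynomial

universe u

theorem fin_mult (p a n : ℕ) (hp : p.Prime) (h : p = a * n + 2) :
    ¬ p ∣ Nat.multinomial Finset.univ (fun _ : Fin n => a) := by
  intro h1
  have h2 := Nat.multinomial_spec (Finset.univ : Finset (Fin n)) (fun _ => a)
  have h3 : p ∣ (∑ _i : Fin n, a).factorial := by
    rw [← h2]
    exact Dvd.dvd.mul_left h1 _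
  rw [hp.dvd_factorial, Finset.sum_const, Finset.card_univ, Fintype.card_fin, smul_eq_mul, mul_comm] at h3
  omega

theorem T_FIN (hPUR : P_PUR.{u}) (hPSI : P_PSI.{u}) (hDSC : P_DSC.{u}) (hQUO : P_QUO.{u})
    (hUMP : P_UMP.{u}) (hLFT : P_LFT.{u}) (hNUM : P_NUM) (hPOW : P_POW.{u}) (hDEL : P_DEL.{u})
    (hSEL : P_SEL.{u}) (hCHR : P_CHR.{u}) : P_FIN.{u} := by
  intro p a n d hpf k _ _ _ hp ha hn hd hdn
  have hpp : p.Prime := hpf.out
  have hd1 : 1 ≤ d := by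
    rcases Nat.eq_zero_or_pos d with h | h
    · subst h
      omega
    · exact h
  have han : a * 3 ≤ a * n := Nat.mul_le_mul_left a hn
  have hna : 1 * n ≤ a * n := Nat.mul_le_mul_right n ha
  have hpd : ¬ p ∣ d := fun h => by
    have := Nat.le_of_dvd hd1 h
    omega
  have hda : d * a < p := by
    have h1 : d * a ≤ n * a := Nat.mul_le_mul_right a hdn.le
    rw [mul_comm n a] at h1
    omega
  obtain ⟨u, hu, hum⟩ := hUMP p k n
  obtain ⟨φ, hL, hφX⟩ := hLFT p k n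
  obtain ⟨κ, hκs, hκp, hκd⟩ := hNUM p a n d hp ha hn hd hdn
  have hL' := hL
  obtain ⟨F, hF⟩ : ∃ F, F = fer n d (WittVector p k) := ⟨_, rfl⟩
  obtain ⟨f, hf⟩ : ∃ f, f = fer n d k := ⟨_, rfl⟩
  have hπF : MvPolynomial.map (WittVector.constantCoeff : WittVector p k →+* k) F = f := by
    rw [hF, hf]
    simp [fer]
  have hφF : φ F = ∑ i, X i ^ (d * p) := by
    rw [hF, fer, map_sum]
    refine Finset.sum_congr rfl fun i _ => ?_
    rw [map_pow, hφX, ← pow_mul, mul_comm]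
  obtain ⟨D, hD⟩ := (hL.ker (φ F - F ^ p)).1 (by rw [map_sub, hL.lift, map_pow, sub_self])
  -- the exponents
  obtain ⟨γ, hγ⟩ : ∃ γ : Fin n →₀ ℕ, ∀ i, γ i = p - 1 - d * κ i % p :=
    ⟨Finsupp.equivFunOnFinite.symm fun i => p - 1 - d * κ i % p, fun i => rfl⟩
  obtain ⟨ε, hε⟩ : ∃ ε : Fin n →₀ ℕ, ∀ i, ε i = d * κ i / p :=
    ⟨Finsupp.equivFunOnFinite.symm fun i => d * κ i / p, fun i => rfl⟩
  obtain ⟨α, hα⟩ : ∃ α : Fin n →₀ ℕ, ∀ i, α i = d * κ i :=
    ⟨Finsupp.equivFunOnFinite.symm fun i => d * κ i, fun i => rfl⟩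
  obtain ⟨β, hβ⟩ : ∃ β : Fin n →₀ ℕ, ∀ i, β i = p - 1 - d * a - ε i :=
    ⟨Finsupp.equivFunOnFinite.symm fun i => p - 1 - d * a - ε i, fun i => rfl⟩
  obtain ⟨α₂, hα₂⟩ : ∃ α₂ : Fin n →₀ ℕ, ∀ i, α₂ i = d * a :=
    ⟨Finsupp.equivFunOnFinite.symm fun _ => d * a, fun i => rfl⟩
  obtain ⟨h', hh'⟩ : ∃ h' : MvPolynomial (Fin n) k, h' = monomial γ 1 := ⟨_, rfl⟩
  have hu0 : u (f ^ (p - 1) * h') = 0 := by
    rw [hh', hf]
    refine (hSEL p k n d (p - 1) u hum hpd _ ?_ κ γ ε α hκp hγ hε hα).1 ?_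
    · exact (hPOW k n d (p - 1) hd1).1
    · rw [hκs]
      have := hpp.two_le
      omega
  have hD' : (p : MvPolynomial (Fin n) (WittVector p k)) * D =
      ∑ i, X i ^ (d * p) - fer n d (WittVector p k) ^ p := by
    rw [← hφF, ← hF, hD]
  obtain ⟨hDa, hDb⟩ := hDEL p k n d hd1 D hD'
  obtain ⟨c₁, hc₁, hθ⟩ : ∃ c₁ : k, c₁ ≠ 0 ∧
      u (f ^ (p - 1) * h' * MvPolynomial.map (WittVector.constantCoeff : WittVector p k →+* k) D) =
        monomial ε c₁ := by
    refine ⟨(frobeniusEquiv k p).symm (coeff α (fer n d k ^ (p - 1) *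
      MvPolynomial.map (WittVector.constantCoeff : WittVector p k →+* k) D)), ?_, ?_⟩
    · rw [Ne, EmbeddingLike.map_eq_zero_iff]
      exact hDb α κ hκp hκs hα
    · rw [mul_right_comm, hh', hf]
      exact (hSEL p k n d (2 * p - 1) u hum hpd _ hDa κ γ ε α hκp hγ hε hα).2 hκs.symm
  have huh : u (f ^ (p ^ 2 - 1) * h') = 0 := by
    have h1 : p ^ 2 - 1 = (p - 1) * p + (p - 1) := by
      obtain ⟨q, rfl⟩ : ∃ q, p = q + 1 := ⟨p - 1, by have := hpp.one_lt; omega⟩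
      have : (q + 1) ^ 2 = q * (q + 1) + q + 1 := by ring
      rw [this]
      simp
    rw [h1, pow_add, pow_mul, mul_assoc, hu, hu0, mul_zero]
  obtain ⟨ψ, hψ1, hψ2⟩ := hPSI p (MvPolynomial (Fin n) k) (MvPolynomial (Fin n) (WittVector p k)) _ φ hL u hu
    (f ^ (p - 2) * u (f ^ (p - 1) * h' * MvPolynomial.map (WittVector.constantCoeff : WittVector p k →+* k) D))
    (f ^ (p ^ 2 - 1) * h') huh
  have hdsc := hDSC p (MvPolynomial (Fin n) k) (MvPolynomial (Fin n) (WittVector p k)) _ φ hL u hu f h' F D hπF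
    hD.symm ψ hψ2
  -- the value at the Teichmüller element
  obtain ⟨c₂, hc₂, hval⟩ : ∃ c₂ : k, c₂ ≠ 0 ∧
      ψ (TruncatedWittVector.mk p ![(monomial β 1 : MvPolynomial (Fin n) k), 0]) = C c₂ := by
    have h1 : φ (monomial β 1) = (monomial β 1) ^ p := by
      have h2 : (monomial β 1 : MvPolynomial (Fin n) (WittVector p k)) = ∏ i, X i ^ β i := by
        rw [monomial_eq, C_1, one_mul, Finsupp.prod_fintype]
        intro i
        rw [pow_zero]
      rw [h2, map_prod, ← Finset.prod_pow]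
      refine Finset.prod_congr rfl fun i _ => ?_
      rw [map_pow, hφX, ← pow_mul, ← pow_mul, mul_comm]
    have h2 := hψ2 (TruncatedWittVector.mk p ![(monomial β 1 : MvPolynomial (Fin n) k), 0]) (monomial β 1) 0
      (by rw [MvPolynomial.map_monomial, map_one]; rfl) (by rw [h1, sub_self, mul_zero])
    have h3 : (TruncatedWittVector.mk p ![(monomial β 1 : MvPolynomial (Fin n) k), 0]).coeff 0 = monomial β 1 := rfl
    have h4 : (TruncatedWittVector.mk p ![(monomial β 1 : MvPolynomial (Fin n) k), 0]).coeff 1 = 0 := rfl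
    rw [h3, h4, map_zero, sub_zero, mul_zero, map_zero, map_zero, add_zero, hθ] at h2
    obtain ⟨r, hr⟩ : ∃ r : k, r ^ p = c₁ :=
      ⟨(frobeniusEquiv k p).symm c₁, by rw [← frobeniusEquiv_def, RingEquiv.apply_symm_apply]⟩
    have hr0 : r ≠ 0 := by
      rintro rfl
      rw [zero_pow hpp.ne_zero] at hr
      exact hc₁ hr.symm
    obtain ⟨γ₂, hγ₂⟩ : ∃ γ₂ : Fin n →₀ ℕ, ∀ i, γ₂ i = p - 1 - d * a % p :=
      ⟨Finsupp.equivFunOnFinite.symm fun _ => p - 1 - d * a % p, fun i => rfl⟩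
    have h5 : ε + β = γ₂ := by
      ext i
      rw [Finsupp.add_apply, hβ, hγ₂, Nat.mod_eq_of_lt hda]
      have h6 := hκd i
      rw [← hε] at h6
      omega
    have h6 : f ^ (p - 2) * monomial ε c₁ * monomial β 1 = C r ^ p * (f ^ (p - 2) * monomial γ₂ 1) := by
      rw [mul_assoc, monomial_mul, mul_one, h5, ← map_pow, hr]
      have : (monomial γ₂ c₁ : MvPolynomial (Fin n) k) = C c₁ * monomial γ₂ 1 := by
        rw [C_mul_monomial, mul_one]
      rw [this]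
      ring
    rw [h6, hu] at h2
    have h7 := (hSEL p k n d (p - 2) u hum hpd (f ^ (p - 2)) (by rw [hf]; exact (hPOW k n d (p - 2) hd1).1)
      (fun _ => a) γ₂ 0 α₂ (fun _ => by omega) hγ₂
      (fun i => by rw [Finsupp.zero_apply, Nat.div_eq_of_lt hda]) hα₂).2 (by
        rw [Finset.sum_const, Finset.card_univ, Fintype.card_fin, smul_eq_mul, mul_comm]
        omega)
    rw [h7, hf, (hPOW k n d (p - 2) hd1).2 α₂ (fun _ => a) hα₂ (by
        rw [Finset.sum_const, Finset.card_univ, Fintype.card_fin, smul_eq_mul, mul_comm]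
        omega)] at h2
    refine ⟨r * (frobeniusEquiv k p).symm (Nat.multinomial Finset.univ (fun _ : Fin n => a) : k), ?_, ?_⟩
    · refine mul_ne_zero hr0 ?_
      rw [Ne, EmbeddingLike.map_eq_zero_iff, CharP.cast_eq_zero_iff k p]
      exact fin_mult p a n hpp hp
    · rw [h2, map_mul]
      rfl
  haveI hch := hCHR p k n d hd1
  rw [hf] at hdsc
  obtain ⟨ψ', hψ'1, hψ'2⟩ := hQUO p (MvPolynomial (Fin n) k) (fer n d k) ψ hψ1 hdsc (monomial β 1) (C c₂⁻¹) (by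
    rw [hval, ← map_mul, inv_mul_cancel₀ hc₂, map_one])
  exact ⟨hch, hPUR p 1 _ ψ' hψ'1 hψ'2⟩

end Pool.Agent.T2H42.QF
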