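import Pool.Agent.T2H42.QF.Stm

/-! # Project QF, package LFT -/

set_option autoImplicit false

namespace Pool.Agent.T2H42.QF

open MvPolynomial

universe u

private theorem LFT_ker (p : ℕ) [Fact p.Prime] (k : Type u) [Field k] [CharP k p] [PerfectRing k p]
    (r : WittVector p k) : (WittVector.constantCoeff : WittVector p k →+* k) r = 0 ↔
      (p : WittVector p k) ∣ r := by
  constructor
  · intro h
    have h0 : ∀ i < 1, r.coeff i = 0 := by
      intro i hi
      obtain rfl : i = 0 := by omega
      exact h
    have h1 := WittVector.eq_iterate_verschiebung h0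
    rw [Function.iterate_one] at h1
    obtain ⟨y, hy⟩ := (WittVector.frobenius_bijective p k).surjective (r.shift 1)
    rw [← hy, WittVector.verschiebung_frobenius] at h1
    exact ⟨y, by rw [h1, mul_comm]⟩
  · rintro ⟨c, rfl⟩
    rw [map_mul, map_natCast, CharP.cast_eq_zero, zero_mul]

theorem T_LFT : P_LFT.{u} := by
  intro p _ k _ _ _ n
  refine ⟨eval₂Hom (C.comp WittVector.frobenius) (fun i => X i ^ p), ⟨?_, ?_, ?_, ?_⟩, ?_⟩
  · exact MvPolynomial.map_surjective _ fun x => ⟨WittVector.teichmuller p x, rfl⟩
  · intro b
    rw [← C_dvd_iff_map_hom_eq_zero (WittVector.constantCoeff : WittVector p k →+* k) (p : WittVector p k)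
      (LFT_ker p k) b]
    have e : (C (p : WittVector p k) : MvPolynomial (Fin n) (WittVector p k)) = (p : MvPolynomial (Fin n) _) := by
      simp
    rw [e]
    rfl
  · intro b hb
    have hp : (p : MvPolynomial (Fin n) (WittVector p k)) ≠ 0 := by
      have e : (C (p : WittVector p k) : MvPolynomial (Fin n) (WittVector p k)) = (p : MvPolynomial (Fin n) _) := by
        simp
      rw [← e, Ne, C_eq_zero]
      exact WittVector.p_nonzero p k
    exact (mul_eq_zero.1 hb).resolve_left hp
  · intro b
    have h : (MvPolynomial.map (WittVector.constantCoeff : WittVector p k →+* k)).comp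
        (eval₂Hom (C.comp WittVector.frobenius) (fun i : Fin n => X i ^ p)) =
        (frobenius (MvPolynomial (Fin n) k) p).comp
          (MvPolynomial.map (WittVector.constantCoeff : WittVector p k →+* k)) := by
      apply MvPolynomial.ringHom_ext
      · intro r
        rw [RingHom.comp_apply, RingHom.comp_apply, eval₂Hom_C, RingHom.comp_apply, map_C, map_C, frobenius_def,
          ← C_pow]
        congr 1
        exact WittVector.coeff_frobenius_charP p r 0
      · intro i
        rw [RingHom.comp_apply, RingHom.comp_apply, eval₂Hom_X', map_pow, map_X, frobenius_def]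
    exact congrArg (fun f => f b) h
  · intro i
    rw [eval₂Hom_X']

end Pool.Agent.T2H42.QF
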