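import Pool.Agent.T2H42.QF.Stm

set_option autoImplicit false

namespace Pool.Agent.T2H42.QF

theorem NUM_choose (K : ℕ) : ∀ n N : ℕ, N ≤ n * K → ∃ κ : Fin n → ℕ, ∑ i, κ i = N ∧ ∀ i, κ i ≤ K := by
  intro n
  induction n with
  | zero =>
    intro N hN
    refine ⟨fun _ => 0, ?_, fun i => Nat.zero_le _⟩
    simp at hN ⊢
    omega
  | succ n ih =>
    intro N hN
    obtain ⟨κ, h1, h2⟩ := ih (N - min K N) (by
      rw [Nat.add_mul, one_mul] at hN
      rcases le_total K N with h | h
      · rw [min_eq_left h]; omega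
      · rw [min_eq_right h]; simp)
    refine ⟨Fin.cons (min K N) κ, ?_, ?_⟩
    · rw [Fin.sum_univ_succ]
      simp only [Fin.cons_zero, Fin.cons_succ]
      rw [h1]
      have : min K N ≤ N := min_le_right _ _
      omega
    · intro i
      refine Fin.cases ?_ (fun j => ?_) i
      · simp
      · simp [h2 j]

theorem T_NUM : P_NUM := by
  intro p a n d hp ha hn hpd hdn
  have hd : 1 ≤ d := by
    rcases Nat.eq_zero_or_pos d with h | h
    · subst h
      omega
    · exact h
  have h1 : d * a + (a + 2) ≤ p := by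
    have : (d + 1) * a ≤ n * a := Nat.mul_le_mul_right a hdn
    have e : (d + 1) * a = d * a + a := by ring
    have e2 : n * a = a * n := Nat.mul_comm _ _
    omega
  obtain ⟨q, hq⟩ := Nat.exists_eq_add_of_le (le_trans (Nat.le_add_right _ _) h1)
  -- `q = p - d a`
  have hq3 : 3 ≤ q := by omega
  have hqd : q ≤ d := by
    have : d * (a + 1) = d * a + d := by ring
    omega
  have hpos : 0 < p := by omega
  have hnp : n ≤ p := by
    have : 1 * n ≤ a * n := Nat.mul_le_mul_right n ha
    omega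
  obtain ⟨K, hK⟩ : ∃ K, K = (p * q - 1) / d := ⟨_, rfl⟩
  have hpq : 1 ≤ p * q := Nat.mul_pos hpos (by omega)
  have hK1 : d * K < p * q := by
    have := Nat.mul_div_le (p * q - 1) d
    rw [← hK] at this
    omega
  have hK2 : p * q ≤ d * (K + 1) := by
    have := Nat.lt_mul_div_succ (p * q - 1) (by omega : 0 < d)
    rw [← hK] at this
    omega
  have hKp : K < p := by
    have h2 : d * K < d * p := by
      calc d * K < p * q := hK1
        _ ≤ p * d := Nat.mul_le_mul_left p hqd
        _ = d * p := Nat.mul_comm _ _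
    exact Nat.lt_of_mul_lt_mul_left h2
  have hnK : 2 * p - 1 ≤ n * K := by
    have h3 : (d + 1) * (K + 1) ≤ n * (K + 1) := Nat.mul_le_mul_right _ hdn
    have h4 : (d + 1) * (K + 1) = d * (K + 1) + (K + 1) := by ring
    have h5 : n * (K + 1) = n * K + n := by ring
    have h6 : p * 3 ≤ p * q := Nat.mul_le_mul_left p hq3
    omega
  obtain ⟨κ, hκ1, hκ2⟩ := NUM_choose K n (2 * p - 1) hnK
  refine ⟨κ, hκ1, fun i => lt_of_le_of_lt (hκ2 i) hKp, fun i => ?_⟩
  have h7 : d * κ i < p * q := lt_of_le_of_lt (Nat.mul_le_mul_left d (hκ2 i)) hK1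
  have h8 : d * κ i / p < q := Nat.div_lt_of_lt_mul h7
  omega

end Pool.Agent.T2H42.QF
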