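import Pool.Agent.T2H42.QF.Stm

set_option autoImplicit false

namespace Pool.Agent.T2H42.QF

open MvPolynomial

universe u

/-- the exponent `d m` -/
noncomputable def POW_exp {n : ℕ} (d : ℕ) (m : Fin n → ℕ) : Fin n →₀ ℕ :=
  Finsupp.equivFunOnFinite.symm (fun i => d * m i)

theorem POW_exp_apply {n : ℕ} (d : ℕ) (m : Fin n → ℕ) (i : Fin n) : POW_exp d m i = d * m i := rfl

theorem POW_prod (R : Type u) [CommRing R] {n : ℕ} (d : ℕ) (m : Fin n → ℕ) :
    ∏ i, ((X i ^ d : MvPolynomial (Fin n) R)) ^ m i = monomial (POW_exp d m) 1 := by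
  rw [MvPolynomial.monomial_eq, C_1, one_mul, Finsupp.prod_fintype _ _ (fun i => pow_zero _)]
  refine Finset.prod_congr rfl fun i _ => ?_
  rw [POW_exp_apply, pow_mul]

theorem POW_coeff (R : Type u) [CommRing R] (n d N : ℕ) (α : Fin n →₀ ℕ) :
    coeff α (fer n d R ^ N) = ∑ k ∈ Finset.piAntidiag Finset.univ N,
      if POW_exp d k = α then (Nat.multinomial Finset.univ k : R) else 0 := by
  classical
  unfold fer
  rw [Finset.sum_pow_eq_sum_piAntidiag, coeff_sum]
  refine Finset.sum_congr rfl fun k _ => ?_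
  rw [POW_prod]
  have : ((Nat.multinomial Finset.univ k : ℕ) : MvPolynomial (Fin n) R) = C ((Nat.multinomial Finset.univ k : ℕ) : R) := by
    rw [map_natCast]
  rw [this, coeff_C_mul, coeff_monomial]
  split_ifs <;> simp

theorem T_POW : P_POW.{u} := by
  intro R _ n d N hd
  constructor
  · intro α hα
    rw [POW_coeff] at hα
    obtain ⟨k, hk, hk2⟩ := Finset.exists_ne_zero_of_sum_ne_zero hα
    have h : POW_exp d k = α := by
      by_contra h
      rw [if_neg h] at hk2
      exact hk2 rfl
    refine ⟨k, fun i => by rw [← h, POW_exp_apply], ?_⟩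
    rw [Finset.mem_piAntidiag] at hk
    exact hk.1
  · intro α m hα hm
    rw [POW_coeff]
    have h : POW_exp d m = α := by
      ext i
      rw [POW_exp_apply, hα]
    rw [Finset.sum_eq_single m]
    · rw [if_pos h]
    · intro k _ hkm
      rw [if_neg]
      intro h2
      apply hkm
      funext i
      have h3 : POW_exp d k i = POW_exp d m i := by rw [h2, h]
      rw [POW_exp_apply, POW_exp_apply] at h3
      exact Nat.eq_of_mul_eq_mul_left hd h3
    · intro h2
      exact absurd (Finset.mem_piAntidiag.2 ⟨hm, fun i _ => Finset.mem_univ i⟩) h2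

end Pool.Agent.T2H42.QF
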