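import Pool.Agent.T2H42.QF.Stm

/-! # Package PSI: the `W_2(A)`-linear map `F_* W_2(A) → A` -/

set_option autoImplicit false

namespace Pool.Agent.T2H42.QF

open MvPolynomial

universe u

/-- two choices of the lift change `π e` by a `p`-th power -/
private theorem PSI_indep (p : ℕ) [hp : Fact p.Prime] {A B : Type u} [CommRing A] [CharP A p] [CommRing B]
    (π : B →+* A) (φ : B →+* B) (hL : Lift p π φ) (b b' e e' : B) (hb : π b = π b')
    (he : (p : B) * e = φ b - b ^ p) (he' : (p : B) * e' = φ b' - b' ^ p) :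
    ∃ c : A, π e' = π e + c ^ p := by
  have h0 : π (b' - b) = 0 := by rw [map_sub, hb, sub_self]
  obtain ⟨c, hc⟩ := (hL.ker _).1 h0
  obtain ⟨k, hk⟩ := Polynomial.powAddExpansion b ((p : B) * c) p
  have hb' : b' = b + (p : B) * c := by rw [← hc]; ring
  refine ⟨π c, ?_⟩
  have h1 : (p : B) * (e' - e - (φ c - (p : B) * (b ^ (p - 1) * c + k * c ^ 2))) = 0 := by
    have h2 : φ b' = φ b + (p : B) * φ c := by
      rw [hb', map_add, map_mul, map_natCast]
    have h3 : b' ^ p = b ^ p + (p : B) * b ^ (p - 1) * ((p : B) * c) + k * ((p : B) * c) ^ 2 := by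
      rw [hb']; exact hk
    calc (p : B) * (e' - e - (φ c - (p : B) * (b ^ (p - 1) * c + k * c ^ 2)))
        = (p : B) * e' - (p : B) * e - (p : B) * φ c
          + ((p : B) * b ^ (p - 1) * ((p : B) * c) + k * ((p : B) * c) ^ 2) := by ring
      _ = 0 := by rw [he, he', h2, h3]; ring
  have h4 := hL.nzd _ h1
  have h5 : e' = e + (φ c - (p : B) * (b ^ (p - 1) * c + k * c ^ 2)) := by
    have := sub_eq_zero.1 h4
    rw [← this]; ring
  rw [h5, map_add, map_sub, map_mul, map_natCast, CharP.cast_eq_zero A p, zero_mul, sub_zero, hL.lift]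

theorem T_PSI : P_CPO → P_W2.{u} → P_PSI.{u} := by
  intro hCPO hW2 p hp A B _ _ _ π φ hL u hu g h huh
  classical
  obtain ⟨C, hC⟩ := hCPO p hp.out
  -- the function `δ`
  have hδ : ∀ b : B, ∃ e : B, (p : B) * e = φ b - b ^ p := by
    intro b
    have : π (φ b - b ^ p) = 0 := by rw [map_sub, map_pow, hL.lift, sub_self]
    obtain ⟨c, hc⟩ := (hL.ker _).1 this
    exact ⟨c, hc.symm⟩
  choose δ hδ using hδ
  choose s hs using hL.surj
  -- the formula does not depend on the choices
  have key : ∀ (a t : A) (b b' e e' : B), π b = a → π b' = a → (p : B) * e = φ b - b ^ p →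
      (p : B) * e' = φ b' - b' ^ p → u (u (h * (t - π e))) = u (u (h * (t - π e'))) := by
    intro a t b b' e e' hb hb' he he'
    obtain ⟨c, hc⟩ := PSI_indep p π φ hL b b' e e' (hb.trans hb'.symm) he he'
    have h1 : h * (t - π e') = h * (t - π e) - c ^ p * h := by rw [hc]; ring
    rw [h1, map_sub, hu, huh, mul_zero, sub_zero]
  let Ψ : TruncatedWittVector p 2 A → A := fun w =>
    u (g * w.coeff 0) + u (u (h * (w.coeff 1 - π (δ (s (w.coeff 0))))))
  have formula : ∀ (w : TruncatedWittVector p 2 A) (b e : B), π b = w.coeff 0 →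
      (p : B) * e = φ b - b ^ p →
      Ψ w = u (g * w.coeff 0) + u (u (h * (w.coeff 1 - π e))) := by
    intro w b e hb he
    change _ + _ = _ + _
    rw [key (w.coeff 0) (w.coeff 1) (s (w.coeff 0)) b (δ (s (w.coeff 0))) e (hs _) hb (hδ _) he]
  have c0add : ∀ x y : TruncatedWittVector p 2 A, (x + y).coeff 0 = x.coeff 0 + y.coeff 0 :=
    fun x y => map_add (res p 1 A) x y
  have c0mul : ∀ x y : TruncatedWittVector p 2 A, (x * y).coeff 0 = x.coeff 0 * y.coeff 0 :=
    fun x y => map_mul (res p 1 A) x y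
  have hadd : ∀ x y, Ψ (x + y) = Ψ x + Ψ y := by
    intro x y
    have hx := formula x (s (x.coeff 0)) (δ (s (x.coeff 0))) (hs _) (hδ _)
    have hy := formula y (s (y.coeff 0)) (δ (s (y.coeff 0))) (hs _) (hδ _)
    set b := s (x.coeff 0) with hb
    set b' := s (y.coeff 0) with hb'
    have hCB : (p : B) * (aeval ![b, b'] C : B) = b ^ p + b' ^ p - (b + b') ^ p := by
      have := congrArg (aeval ![b, b'] : MvPolynomial (Fin 2) ℤ →ₐ[ℤ] B) hC
      simpa [map_mul, map_natCast, map_sub, map_add, map_pow, aeval_X] using this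
    have h1 := formula (x + y) (b + b') (δ b + δ b' + aeval ![b, b'] C)
      (by rw [c0add, map_add, hb, hb', hs, hs])
      (by rw [mul_add, mul_add, hδ, hδ, hCB, map_add]; ring)
    have hπC : π (aeval ![b, b'] C) = aeval ![x.coeff 0, y.coeff 0] C := by
      have h3 : ![x.coeff 0, y.coeff 0] = fun i => π (![b, b'] i) := by
        funext i
        fin_cases i
        · change x.coeff 0 = π b
          rw [hb, hs]
        · change y.coeff 0 = π b'
          rw [hb', hs]
      rw [h3]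
      have h4 := MvPolynomial.comp_aeval (R := ℤ) ![b, b'] (RingHom.toIntAlgHom π)
      have h5 := DFunLike.congr_fun h4 C
      exact h5
    rw [h1, hx, hy, c0add, (hW2 p A x y).2 C hC, map_add, map_add, hπC, mul_add, map_add]
    have h6 : h * (x.coeff 1 + y.coeff 1 + aeval ![x.coeff 0, y.coeff 0] C -
        (π (δ b) + π (δ b') + aeval ![x.coeff 0, y.coeff 0] C)) =
        h * (x.coeff 1 - π (δ b)) + h * (y.coeff 1 - π (δ b')) := by ring
    rw [h6, map_add, map_add]
    ring
  refine ⟨AddMonoidHom.mk' Ψ hadd, ?_, formula⟩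
  intro w v
  change Ψ (frob p 2 A w * v) = w.coeff 0 * Ψ v
  set b := s (w.coeff 0) with hb
  set b' := s (v.coeff 0) with hb'
  have hbw : π b = w.coeff 0 := hs _
  have hbv : π b' = v.coeff 0 := hs _
  have hF0 : (frob p 2 A w).coeff 0 = w.coeff 0 ^ p := by
    change (TruncatedWittVector.mk p fun i => w.coeff i ^ p).coeff 0 = _
    rw [TruncatedWittVector.coeff_mk]
  have hF1 : (frob p 2 A w).coeff 1 = w.coeff 1 ^ p := by
    change (TruncatedWittVector.mk p fun i => w.coeff i ^ p).coeff 1 = _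
    rw [TruncatedWittVector.coeff_mk]
  have h1 := formula (frob p 2 A w * v) (φ b * b') (φ (φ b) * δ b' + b' ^ p * φ (δ b))
    (by rw [c0mul, hF0, map_mul, hL.lift, hbw, hbv])
    (by
      have e1 : (p : B) * φ (δ b) = φ (φ b) - φ b ^ p := by
        have := congrArg φ (hδ b)
        rwa [map_mul, map_natCast, map_sub, map_pow] at this
      calc (p : B) * (φ (φ b) * δ b' + b' ^ p * φ (δ b))
          = φ (φ b) * ((p : B) * δ b') + b' ^ p * ((p : B) * φ (δ b)) := by ring
        _ = φ (φ b * b') - (φ b * b') ^ p := by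
          rw [hδ b', e1, map_mul, mul_pow]; ring)
  have h2 := formula v b' (δ b') hbv (hδ b')
  have hπ : π (φ (φ b) * δ b' + b' ^ p * φ (δ b)) =
      (w.coeff 0 ^ p) ^ p * π (δ b') + v.coeff 0 ^ p * π (δ b) ^ p := by
    rw [map_add, map_mul, map_mul, map_pow, hL.lift, hL.lift, hL.lift, hbw, hbv]
  rw [h1, h2, c0mul, (hW2 p A _ v).1, hF0, hF1, hπ]
  have h3 : g * (w.coeff 0 ^ p * v.coeff 0) = w.coeff 0 ^ p * (g * v.coeff 0) := by ring
  have h4 : h * ((w.coeff 0 ^ p) ^ p * v.coeff 1 + v.coeff 0 ^ p * w.coeff 1 ^ p -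
      ((w.coeff 0 ^ p) ^ p * π (δ b') + v.coeff 0 ^ p * π (δ b) ^ p)) =
      (w.coeff 0 ^ p) ^ p * (h * (v.coeff 1 - π (δ b'))) + (v.coeff 0 * w.coeff 1) ^ p * h
        - (v.coeff 0 * π (δ b)) ^ p * h := by
    rw [mul_pow, mul_pow]; ring
  rw [h3, h4, hu, map_sub, map_add, hu, hu, hu, huh, mul_zero, mul_zero, add_zero, sub_zero, hu]
  ring

end Pool.Agent.T2H42.QF
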