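import Pool.Agent.T2H42.QF.Stm

set_option autoImplicit false

namespace Pool.Agent.T2H42.QF

open scoped TensorProduct

universe u

theorem T_PUR : P_PUR.{u} := by
  intro p _ ℓ S _ _ ψ hψ hψ1
  -- the bilinear map
  let f : ResMod p ℓ S →ₗ[TruncatedWittVector p (ℓ + 1) S] FStar p (ℓ + 1) S
      →ₗ[TruncatedWittVector p (ℓ + 1) S] ResMod p ℓ S :=
    LinearMap.mk₂ (TruncatedWittVector p (ℓ + 1) S)
      (fun (s : ResMod p ℓ S) (v : FStar p (ℓ + 1) S) =>
        (show ResMod p ℓ S from ((show S from s) * ψ (show TruncatedWittVector p (ℓ + 1) S from v) : S)))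
      (by
        intro s s' v
        exact add_mul (show S from s) (show S from s') _)
      (by
        intro w s v
        exact mul_assoc (res p ℓ S w) (show S from s) _)
      (by
        intro s v v'
        show (show S from s) * ψ ((show TruncatedWittVector p (ℓ + 1) S from v) +
          (show TruncatedWittVector p (ℓ + 1) S from v')) = _
        rw [map_add]
        exact mul_add (show S from s) _ _)
      (by
        intro w s v
        show (show S from s) * ψ (frob p (ℓ + 1) S w * (show TruncatedWittVector p (ℓ + 1) S from v)) =
          res p ℓ S w * ((show S from s) * ψ (show TruncatedWittVector p (ℓ + 1) S from v))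
        rw [hψ]
        ring)
  let r0 : QMod p ℓ S →ₗ[TruncatedWittVector p (ℓ + 1) S] ResMod p ℓ S := TensorProduct.lift f
  let r : QMod p ℓ S →ₗ[S] S :=
    { toFun := fun x => (show S from r0 x)
      map_add' := fun x y => r0.map_add x y
      map_smul' := by
        intro c x
        show (show S from r0 (c • x)) = c * (show S from r0 x)
        induction x using TensorProduct.induction_on with
        | zero =>
          rw [smul_zero]
          have : r0 0 = 0 := r0.map_zero
          rw [this]
          exact (mul_zero c).symm
        | tmul s v =>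
          rw [TensorProduct.smul_tmul']
          show (c * (show S from s)) * ψ (show TruncatedWittVector p (ℓ + 1) S from v) =
            c * ((show S from s) * ψ (show TruncatedWittVector p (ℓ + 1) S from v))
          ring
        | add x y hx hy =>
          rw [smul_add, r0.map_add, r0.map_add]
          have e1 : (show S from (r0 (c • x) + r0 (c • y) : ResMod p ℓ S)) =
            (show S from r0 (c • x)) + (show S from r0 (c • y)) := rfl
          have e2 : (show S from (r0 x + r0 y : ResMod p ℓ S)) =
            (show S from r0 x) + (show S from r0 y) := rfl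
          rw [e1, e2, hx, hy, mul_add] }
  have hr : r ∘ₗ Phi p ℓ S = LinearMap.id := by
    apply LinearMap.ext_ring
    show r (Phi p ℓ S 1) = 1
    unfold Phi
    rw [LinearMap.toSpanSingleton_apply, one_smul]
    show (1 : S) * ψ 1 = 1
    rw [hψ1, one_mul]
  intro M _ _
  have h : LinearMap.lTensor M r ∘ₗ LinearMap.lTensor M (Phi p ℓ S) = LinearMap.id := by
    rw [← LinearMap.lTensor_comp, hr, LinearMap.lTensor_id]
  intro x y hxy
  have h2 := congrArg (LinearMap.lTensor M r) hxy
  have h3 : ∀ z, LinearMap.lTensor M r (LinearMap.lTensor M (Phi p ℓ S) z) = z := fun z =>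
    congrArg (fun g => g z) h
  rwa [h3, h3] at h2

end Pool.Agent.T2H42.QF
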