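import Pool.Agent.T2H42.QF.Stm

/-! Package QUO of project QF. -/

set_option autoImplicit false

namespace Pool.Agent.T2H42.QF

universe u

lemma quo_frob_coeff (p : ℕ) [Fact p.Prime] (ℓ : ℕ) (S : Type u) [CommRing S] [CharP S p]
    (x : TruncatedWittVector p ℓ S) (i : Fin ℓ) : (frob p ℓ S x).coeff i = x.coeff i ^ p := by
  show (TruncatedWittVector.mk p fun i => x.coeff i ^ p).coeff i = x.coeff i ^ p
  rw [TruncatedWittVector.coeff_mk]

lemma quo_res (p : ℕ) [Fact p.Prime] (S : Type u) [CommRing S]
    (x : TruncatedWittVector p 2 S) : res p 1 S x = x.coeff 0 := rfl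

section mu

variable (p : ℕ) [Fact p.Prime] {A B : Type u} [CommRing A] [CommRing B] (q : A →+* B)

/-- functoriality of Witt vectors of length two -/
noncomputable def quo_mu : TruncatedWittVector p 2 A →+* TruncatedWittVector p 2 B where
  toFun x := TruncatedWittVector.mk p fun i => q (x.coeff i)
  map_one' := by
    have h : ∀ X : WittVector p A, (TruncatedWittVector.mk p fun i => q ((WittVector.truncate 2 X).coeff i)) =
        WittVector.truncate 2 (WittVector.map q X) := by
      intro X
      ext i
      rw [TruncatedWittVector.coeff_mk, WittVector.coeff_truncate, WittVector.coeff_truncate,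
        WittVector.map_coeff]
    rw [← map_one (WittVector.truncate 2), h, map_one, map_one]
  map_zero' := by
    have h : ∀ X : WittVector p A, (TruncatedWittVector.mk p fun i => q ((WittVector.truncate 2 X).coeff i)) =
        WittVector.truncate 2 (WittVector.map q X) := by
      intro X
      ext i
      rw [TruncatedWittVector.coeff_mk, WittVector.coeff_truncate, WittVector.coeff_truncate,
        WittVector.map_coeff]
    rw [← map_zero (WittVector.truncate 2), h, map_zero, map_zero]
  map_mul' x y := by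
    have h : ∀ X : WittVector p A, (TruncatedWittVector.mk p fun i => q ((WittVector.truncate 2 X).coeff i)) =
        WittVector.truncate 2 (WittVector.map q X) := by
      intro X
      ext i
      rw [TruncatedWittVector.coeff_mk, WittVector.coeff_truncate, WittVector.coeff_truncate,
        WittVector.map_coeff]
    obtain ⟨X, rfl⟩ := WittVector.truncate_surjective p 2 A x
    obtain ⟨Y, rfl⟩ := WittVector.truncate_surjective p 2 A y
    rw [← map_mul, h, h, h, map_mul, map_mul]
  map_add' x y := by
    have h : ∀ X : WittVector p A, (TruncatedWittVector.mk p fun i => q ((WittVector.truncate 2 X).coeff i)) =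
        WittVector.truncate 2 (WittVector.map q X) := by
      intro X
      ext i
      rw [TruncatedWittVector.coeff_mk, WittVector.coeff_truncate, WittVector.coeff_truncate,
        WittVector.map_coeff]
    obtain ⟨X, rfl⟩ := WittVector.truncate_surjective p 2 A x
    obtain ⟨Y, rfl⟩ := WittVector.truncate_surjective p 2 A y
    rw [← map_add, h, h, h, map_add, map_add]

lemma quo_mu_coeff (x : TruncatedWittVector p 2 A) (i : Fin 2) :
    (quo_mu p q x).coeff i = q (x.coeff i) := by
  show (TruncatedWittVector.mk p fun i => q (x.coeff i)).coeff i = q (x.coeff i)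
  rw [TruncatedWittVector.coeff_mk]

lemma quo_mu_surj (hq : Function.Surjective q) : Function.Surjective (quo_mu p q) := by
  intro y
  choose g hg using fun i : Fin 2 => hq (y.coeff i)
  refine ⟨TruncatedWittVector.mk p g, ?_⟩
  ext i
  rw [quo_mu_coeff, TruncatedWittVector.coeff_mk, hg]

end mu

theorem T_QUO : P_W2.{u} → P_QUO.{u} := by
  intro hW2 p _ A _ _ f _ ψ hψ hdiv c lam hlam
  obtain ⟨q, hq⟩ : ∃ q : A →+* (A ⧸ Ideal.span {f}), q = Ideal.Quotient.mk (Ideal.span {f}) :=
    ⟨_, rfl⟩
  have hqs : Function.Surjective q := by rw [hq]; exact Ideal.Quotient.mk_surjective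
  have hq0 : ∀ a, q a = 0 ↔ f ∣ a := by
    intro a
    rw [hq, Ideal.Quotient.eq_zero_iff_mem, Ideal.mem_span_singleton]
  have hs := quo_mu_surj p q hqs
  obtain ⟨C, hC⟩ : ∃ C : TruncatedWittVector p 2 A, C = TruncatedWittVector.mk p ![c, 0] := ⟨_, rfl⟩
  have hC0 : C.coeff 0 = c := by rw [hC, TruncatedWittVector.coeff_mk]; rfl
  have hC1 : C.coeff 1 = 0 := by rw [hC, TruncatedWittVector.coeff_mk]; rfl
  rw [← hC] at hlam
  -- the additive map upstairs
  obtain ⟨G, hG⟩ : ∃ G : TruncatedWittVector p 2 A →+ (A ⧸ Ideal.span {f}),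
      ∀ w, G w = q (lam * ψ (C * w)) := by
    refine ⟨{ toFun := fun w => q (lam * ψ (C * w)), map_zero' := ?_, map_add' := ?_ }, fun w => rfl⟩
    · rw [mul_zero, map_zero, mul_zero, map_zero]
    · intro x y
      rw [mul_add, map_add, mul_add, map_add]
  have hker : ∀ w, quo_mu p q w = 0 → G w = 0 := by
    intro w hw
    have h0 : f ∣ w.coeff 0 := by
      rw [← hq0, ← quo_mu_coeff, hw]
      exact TruncatedWittVector.coeff_zero p 2 _ 0
    have h1 : f ∣ w.coeff 1 := by
      rw [← hq0, ← quo_mu_coeff, hw]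
      exact TruncatedWittVector.coeff_zero p 2 _ 1
    have h2 : (C * w).coeff 0 = c * w.coeff 0 := by
      rw [← quo_res, map_mul, quo_res, quo_res, hC0]
    have h3 : (C * w).coeff 1 = c ^ p * w.coeff 1 := by
      rw [(hW2 p A C w).1, hC0, hC1, mul_zero, add_zero]
    rw [hG, hq0]
    refine Dvd.dvd.mul_left (hdiv _ ?_ ?_) _
    · rw [h2]
      exact Dvd.dvd.mul_left h0 _
    · rw [h3]
      exact Dvd.dvd.mul_left h1 _
  have hGeq : ∀ w w', quo_mu p q w = quo_mu p q w' → G w = G w' := by
    intro w w' h
    have h1 : quo_mu p q (w - w') = 0 := by rw [map_sub, h, sub_self]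
    have h2 := hker _ h1
    rw [map_sub] at h2
    exact sub_eq_zero.1 h2
  obtain ⟨ψ', hψ'⟩ : ∃ ψ' : TruncatedWittVector p 2 (A ⧸ Ideal.span {f}) →+ (A ⧸ Ideal.span {f}),
      ∀ w, ψ' (quo_mu p q w) = G w := by
    refine ⟨{ toFun := fun x => G (Function.surjInv hs x), map_zero' := ?_, map_add' := ?_ },
      fun w => ?_⟩
    · rw [hGeq _ 0, map_zero]
      rw [Function.surjInv_eq hs, map_zero]
    · intro x y
      rw [← map_add]
      apply hGeq
      rw [Function.surjInv_eq hs, map_add, Function.surjInv_eq hs, Function.surjInv_eq hs]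
    · exact hGeq _ _ (Function.surjInv_eq hs _)
  refine ⟨ψ', fun w v => ?_, ?_⟩
  · obtain ⟨W, rfl⟩ := hs w
    obtain ⟨V, rfl⟩ := hs v
    have h1 : frob p 2 _ (quo_mu p q W) = quo_mu p q (frob p 2 A W) := by
      ext i
      rw [quo_frob_coeff, quo_mu_coeff, quo_mu_coeff, quo_frob_coeff, map_pow]
    rw [h1, ← map_mul, hψ', hψ', hG, hG, quo_res, quo_mu_coeff]
    have h2 : C * (frob p 2 A W * V) = frob p 2 A W * (C * V) := by ring
    rw [h2, hψ, quo_res, ← map_mul]
    congr 1
    ring
  · have h1 : (1 : TruncatedWittVector p 2 (A ⧸ Ideal.span {f})) = quo_mu p q 1 := (map_one _).symm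
    rw [h1, hψ', hG, mul_one, hlam, map_one]

end Pool.Agent.T2H42.QF
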