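import Pool.Agent.T2H42.QF.Stm

set_option autoImplicit false

namespace Pool.Agent.T2H42.QF

open MvPolynomial

universe u

theorem SEL_mod {p d m κ : ℕ} (hp : p.Prime) (hd : ¬ p ∣ d) (hκ : κ < p)
    (h : (d * m + (p - 1 - d * κ % p)) % p = p - 1) : κ ≤ m := by
  have hp0 := hp.pos
  have h1 : d * κ % p < p := Nat.mod_lt _ hp0
  have h2 : d * m + (p - 1 - d * κ % p) ≡ p - 1 [MOD p] := by
    unfold Nat.ModEq
    rw [h, Nat.mod_eq_of_lt (by omega)]
  have h3 : d * m + (p - 1 - d * κ % p) + d * κ % p ≡ p - 1 + d * κ % p [MOD p] :=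
    Nat.ModEq.add_right _ h2
  have h4 : d * m + (p - 1) ≡ d * κ % p + (p - 1) [MOD p] := by
    have e1 : d * m + (p - 1 - d * κ % p) + d * κ % p = d * m + (p - 1) := by omega
    rw [e1] at h3
    rw [add_comm (d * κ % p)]
    exact h3
  have h5 : d * m ≡ d * κ % p [MOD p] := Nat.ModEq.add_right_cancel' _ h4
  have h6 : d * m ≡ d * κ [MOD p] := h5.trans (Nat.mod_modEq _ _)
  have h7 : m ≡ κ [MOD p] :=
    Nat.ModEq.cancel_left_of_coprime ((Nat.Prime.coprime_iff_not_dvd hp).2 hd) h6
  have h8 : m % p = κ := by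
    have : m % p = κ % p := h7
    rw [this, Nat.mod_eq_of_lt hκ]
  rw [← h8]
  exact Nat.mod_le _ _

theorem SEL_div {p x : ℕ} (hp : 0 < p) :
    (x + (p - 1 - x % p)) % p = p - 1 ∧ (x + (p - 1 - x % p)) / p = x / p := by
  have h1 : x % p < p := Nat.mod_lt _ hp
  have h2 : x + (p - 1 - x % p) = p - 1 + p * (x / p) := by
    have := Nat.mod_add_div x p
    omega
  rw [h2]
  constructor
  · rw [Nat.add_mul_mod_self_left, Nat.mod_eq_of_lt (by omega)]
  · rw [Nat.add_mul_div_left _ _ hp, Nat.div_eq_of_lt (by omega), zero_add]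

theorem T_SEL : P_SEL.{u} := by
  classical
  intro p hp k _ _ _ n d N u hu hd P hP κ γ ε α hκ hγ hε hα
  have hexp : u (P * monomial γ 1) = ∑ β ∈ P.support, u (monomial (β + γ) (coeff β P)) := by
    conv_lhs => rw [P.as_sum]
    rw [Finset.sum_mul, map_sum]
    refine Finset.sum_congr rfl fun β _ => ?_
    rw [monomial_mul, mul_one]
  have hle : ∀ β ∈ P.support, (∀ i, (β + γ) i % p = p - 1) →
      ∃ m : Fin n → ℕ, (∀ i, β i = d * m i) ∧ ∑ i, m i = N ∧ ∀ i, κ i ≤ m i := by
    intro β hβ hmod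
    obtain ⟨m, hm, hN⟩ := hP β (mem_support_iff.1 hβ)
    refine ⟨m, hm, hN, fun i => ?_⟩
    have := hmod i
    rw [Finsupp.add_apply, hm i, hγ i] at this
    exact SEL_mod hp.out hd (hκ i) this
  constructor
  · intro hN
    rw [hexp]
    refine Finset.sum_eq_zero fun β hβ => ?_
    rw [hu, if_neg]
    intro hmod
    obtain ⟨m, -, hmN, hm⟩ := hle β hβ hmod
    have : ∑ i, κ i ≤ ∑ i, m i := Finset.sum_le_sum fun i _ => hm i
    omega
  · intro hN
    rw [hexp]
    have hval : u (monomial (α + γ) (coeff α P)) =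
        monomial ε ((frobeniusEquiv k p).symm (coeff α P)) := by
      rw [hu, if_pos]
      · have hE : (α + γ).mapRange (fun m => m / p) (Nat.zero_div p) = ε := by
          ext i
          rw [Finsupp.mapRange_apply, Finsupp.add_apply, hα, hγ, hε]
          exact (SEL_div hp.out.pos).2
        rw [hE]
      · intro i
        rw [Finsupp.add_apply, hα, hγ]
        exact (SEL_div hp.out.pos).1
    rw [← hval]
    refine Finset.sum_eq_single α ?_ ?_
    · intro β hβ hne
      rw [hu, if_neg]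
      intro hmod
      obtain ⟨m, hm, hmN, hm2⟩ := hle β hβ hmod
      apply hne
      have hs : ∑ i, κ i = ∑ i, m i := by rw [hmN, hN]
      have := (Finset.sum_eq_sum_iff_of_le (fun i _ => hm2 i)).1 hs
      ext i
      rw [hm i, hα i, this i (Finset.mem_univ i)]
    · intro hn
      rw [notMem_support_iff.1 hn, monomial_zero, map_zero]

end Pool.Agent.T2H42.QF
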