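import Pool.Agent.T2H42.QF.Stm

/-! # Project QF, package UMP -/

set_option autoImplicit false

namespace Pool.Agent.T2H42.QF

open MvPolynomial

universe u

/-- the images of the monomials -/
private noncomputable def UMP_g (p : ℕ) [Fact p.Prime] (k : Type u) [Field k] [CharP k p] [PerfectRing k p]
    (n : ℕ) (α : Fin n →₀ ℕ) : k →+ MvPolynomial (Fin n) k :=
  if ∀ i, α i % p = p - 1 then
    (monomial (α.mapRange (fun m => m / p) (Nat.zero_div p))).toAddMonoidHom.comp
      (frobeniusEquiv k p).symm.toRingHom.toAddMonoidHom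
  else 0

private noncomputable def UMP_u (p : ℕ) [Fact p.Prime] (k : Type u) [Field k] [CharP k p] [PerfectRing k p]
    (n : ℕ) : MvPolynomial (Fin n) k →+ MvPolynomial (Fin n) k :=
  (Finsupp.liftAddHom (UMP_g p k n)).comp AddMonoidAlgebra.coeffAddEquiv.toAddMonoidHom

private theorem UMP_mon (p : ℕ) [Fact p.Prime] (k : Type u) [Field k] [CharP k p] [PerfectRing k p]
    (n : ℕ) (α : Fin n →₀ ℕ) (c : k) : UMP_u p k n (monomial α c) =
      if ∀ i, α i % p = p - 1 then
        monomial (α.mapRange (fun m => m / p) (Nat.zero_div p)) ((frobeniusEquiv k p).symm c) else 0 := by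
  have h : (AddMonoidAlgebra.coeffAddEquiv (monomial α c : MvPolynomial (Fin n) k)) = Finsupp.single α c := rfl
  unfold UMP_u
  rw [AddMonoidHom.comp_apply]
  change (Finsupp.liftAddHom (UMP_g p k n)) (AddMonoidAlgebra.coeffAddEquiv (monomial α c : MvPolynomial (Fin n) k)) = _
  rw [h, Finsupp.liftAddHom_apply_single]
  unfold UMP_g
  split_ifs
  · rfl
  · rfl

private theorem UMP_pow (p : ℕ) [Fact p.Prime] (k : Type u) [Field k] [CharP k p] [PerfectRing k p]
    (n : ℕ) (α β : Fin n →₀ ℕ) (s t : k) :
    UMP_u p k n ((monomial β t) ^ p * monomial α s) = monomial β t * UMP_u p k n (monomial α s) := by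
  have hp : 0 < p := (Fact.out : p.Prime).pos
  rw [monomial_pow, monomial_mul, UMP_mon, UMP_mon]
  have h1 : ∀ i, (p • β + α) i % p = α i % p := by
    intro i
    rw [Finsupp.add_apply, Finsupp.smul_apply, smul_eq_mul, Nat.mul_add_mod]
  simp only [h1]
  split_ifs with h
  · have e : (p • β + α).mapRange (fun m => m / p) (Nat.zero_div p) =
        β + α.mapRange (fun m => m / p) (Nat.zero_div p) := by
      ext i
      rw [Finsupp.mapRange_apply, Finsupp.add_apply, Finsupp.add_apply, Finsupp.smul_apply, smul_eq_mul,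
        Finsupp.mapRange_apply, Nat.mul_add_div hp]
    rw [monomial_mul, e, map_mul, frobeniusEquiv_symm_pow]
  · rw [mul_zero]

theorem T_UMP : P_UMP.{u} := by
  intro p _ k _ _ _ n
  refine ⟨UMP_u p k n, ?_, fun α c => UMP_mon p k n α c⟩
  intro c a
  induction a using MvPolynomial.induction_on' with
  | add a b iha ihb => rw [mul_add, map_add, map_add, iha, ihb, mul_add]
  | monomial α s =>
    induction c using MvPolynomial.induction_on' with
    | add c d ihc ihd => rw [add_pow_char, add_mul, map_add, ihc, ihd, add_mul]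
    | monomial β t => exact UMP_pow p k n α β s t

end Pool.Agent.T2H42.QF
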