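import Pool.Agent.T2H42.QF.Stm

/-! # Project QF, package W2 -/

set_option autoImplicit false

namespace Pool.Agent.T2H42.QF

open MvPolynomial

universe u

/-- the ghost equation for the structure polynomials of index one -/
private theorem W2_ghost (p : ℕ) [Fact p.Prime] (Φ : MvPolynomial (Fin 2) ℤ) :
    (p : MvPolynomial (Fin 2 × ℕ) ℤ) * wittStructureInt p Φ 1 + wittStructureInt p Φ 0 ^ p =
      aeval (fun i : Fin 2 => (p : MvPolynomial (Fin 2 × ℕ) ℤ) * X (i, 1) + X (i, 0) ^ p) Φ := by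
  have h := wittStructureInt_prop p Φ 1
  rw [wittPolynomial_one] at h
  rw [map_add, map_mul, map_pow, bind₁_X_right, bind₁_X_right] at h
  have e1 : (bind₁ (wittStructureInt p Φ)) (C ((p : ℕ) : ℤ)) = (p : MvPolynomial (Fin 2 × ℕ) ℤ) := by
    simp
  rw [e1] at h
  rw [h]
  have e2 : (fun i : Fin 2 => rename (Prod.mk i) (C ((p : ℕ) : ℤ) * X 1 + X 0 ^ p : MvPolynomial ℕ ℤ)) =
      (fun i : Fin 2 => (p : MvPolynomial (Fin 2 × ℕ) ℤ) * X (i, 1) + X (i, 0) ^ p) := by
    funext i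
    simp
  rw [e2]
  rfl

private theorem W2_pne (p : ℕ) [Fact p.Prime] : (p : MvPolynomial (Fin 2 × ℕ) ℤ) ≠ 0 := by
  have : p ≠ 0 := (Fact.out : p.Prime).ne_zero
  exact_mod_cast this

private theorem W2_add (p : ℕ) [Fact p.Prime] (D : MvPolynomial (Fin 2) ℤ)
    (hD : (p : MvPolynomial (Fin 2) ℤ) * D = X 0 ^ p + X 1 ^ p - (X 0 + X 1) ^ p) :
    WittVector.wittAdd p 1 = X (0, 1) + X (1, 1) +
      aeval (![X (0, 0), X (1, 0)] : Fin 2 → MvPolynomial (Fin 2 × ℕ) ℤ) D := by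
  have h := W2_ghost p (X 0 + X 1)
  have h0 : wittStructureInt p (X 0 + X 1 : MvPolynomial (Fin 2) ℤ) 0 = X (0, 0) + X (1, 0) :=
    WittVector.wittAdd_zero p
  have h1 := congrArg (aeval (![X (0, 0), X (1, 0)] : Fin 2 → MvPolynomial (Fin 2 × ℕ) ℤ)) hD
  rw [map_mul, map_natCast, map_sub, map_add, map_pow, map_pow, map_pow, map_add, aeval_X, aeval_X] at h1
  rw [map_add, aeval_X, aeval_X, h0] at h
  change wittStructureInt p (X 0 + X 1) 1 = _
  apply mul_left_cancel₀ (W2_pne p)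
  simp only [Matrix.cons_val_zero, Matrix.cons_val_one] at h1
  linear_combination h - h1

private theorem W2_mul (p : ℕ) [Fact p.Prime] :
    WittVector.wittMul p 1 = X (0, 0) ^ p * X (1, 1) + X (1, 0) ^ p * X (0, 1) +
      (p : MvPolynomial (Fin 2 × ℕ) ℤ) * (X (0, 1) * X (1, 1)) := by
  have h := W2_ghost p (X 0 * X 1)
  have h0 : wittStructureInt p (X 0 * X 1 : MvPolynomial (Fin 2) ℤ) 0 = X (0, 0) * X (1, 0) :=
    WittVector.wittMul_zero p
  rw [map_mul, aeval_X, aeval_X, h0] at h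
  change wittStructureInt p (X 0 * X 1) 1 = _
  apply mul_left_cancel₀ (W2_pne p)
  linear_combination h

theorem T_W2 : P_W2.{u} := by
  intro p _ S _ _ x y
  obtain ⟨Z, rfl⟩ := WittVector.truncate_surjective p 2 S x
  obtain ⟨Y, rfl⟩ := WittVector.truncate_surjective p 2 S y
  rw [← map_mul, ← map_add]
  simp only [WittVector.coeff_truncate]
  refine ⟨?_, fun D hD => ?_⟩
  · have h := WittVector.mul_coeff Z Y 1
    rw [W2_mul] at h
    change (Z * Y).coeff 1 = Z.coeff 0 ^ p * Y.coeff 1 + Y.coeff 0 ^ p * Z.coeff 1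
    rw [h]
    simp [WittVector.peval, Function.uncurry]
  · have h := WittVector.add_coeff Z Y 1
    rw [W2_add p D hD] at h
    change (Z + Y).coeff 1 = Z.coeff 1 + Y.coeff 1 + aeval ![Z.coeff 0, Y.coeff 0] D
    rw [h]
    unfold WittVector.peval
    rw [map_add, map_add, aeval_X, aeval_X]
    have e : (aeval (Function.uncurry ![Z.coeff, Y.coeff]))
        ((aeval (![X (0, 0), X (1, 0)] : Fin 2 → MvPolynomial (Fin 2 × ℕ) ℤ)) D) =
        aeval ![Z.coeff 0, Y.coeff 0] D := by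
      rw [← AlgHom.comp_apply, comp_aeval]
      congr 2
      funext i
      fin_cases i <;> simp [Function.uncurry]
    rw [e]
    simp [Function.uncurry]

end Pool.Agent.T2H42.QF
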